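import Pool.Agent.H589R3.DT.Props

/-! # Families of constraint maps: small value and mixing -/

open scoped Classical
open Finset

namespace Pool.Agent.NH48.DA

open H589DT

/-- a family of `d`-to-1 maps with left labels `LL` and right labels `LL × Fin d`; the maps with the
numbers `i * C`, ..., `i * C + C - 1` are the candidates for the constraint on the `i`-th edge of a
right vertex -/
structure Good {LL : Type} [Fintype LL] {d : ℕ} (cm : ℕ → LL × Fin d → LL) (D C : ℕ) : Prop where
  inj : ∀ t j l l', cm t (l, j) = cm t (l', j) → l = l'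
  one : ∀ i < D, ∀ m l, ∀ s < C, ∀ s' < C, cm (i * C + s) m = l → cm (i * C + s') m = l → s = s'
  conn : ∀ i < D, ∀ i' < D, i ≠ i' → ∀ s < C, ∀ s' < C, ∀ R : Finset (LL × Fin d), R.Nonempty →
    (∀ b b', b ∈ R → cm (i * C + s) b = cm (i * C + s) b' → b' ∈ R) →
    (∀ b b', b ∈ R → cm (i' * C + s') b = cm (i' * C + s') b' → b' ∈ R) → R = univ

/-- the constraint graph on the vertices `Fin n ⊕ Fin n` given by `φ` and the numbers `s` -/
def gg {n D d : ℕ} {LL : Type} (C : ℕ) (cm : ℕ → LL × Fin d → LL) (φ : Fin n → Fin D → Fin n)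
    (B : Finset (Fin n)) (s : Fin n → Fin D → Fin C) :
    CGraph (Fin n ⊕ Fin n) {e : Fin n × Fin D // e.1 ∉ B} (LL × Fin d) where
  src e := Sum.inl (φ e.1.1 e.1.2)
  tgt e := Sum.inr e.1.1
  ne e := Sum.inl_ne_inr
  rel e a b := cm ((e.1.2 : ℕ) * C + (s e.1.1 e.1.2 : ℕ)) b = a.1

section

variable {LL : Type} [Fintype LL] {d : ℕ} {cm : ℕ → LL × Fin d → LL} {D C : ℕ}

theorem Good.surj (h : Good cm D C) (t : ℕ) (j : Fin d) (l : LL) : ∃ l', cm t (l', j) = l := by
  have h1 : Function.Injective fun l' => cm t (l', j) := fun l1 l2 h2 => h.inj t j l1 l2 h2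
  exact (Finite.surjective_of_injective h1) l

theorem Good.card_fib (h : Good cm D C) (t : ℕ) (V : Finset LL) :
    (univ.filter fun b : LL × Fin d => cm t b ∈ V).card = V.card * d := by
  have h1 : (univ.filter fun b : LL × Fin d => cm t b ∈ V).card
      = (V ×ˢ (univ : Finset (Fin d))).card := by
    apply Finset.card_bij (fun b _ => (cm t b, b.2))
    · intro b hb
      simpa using hb
    · intro b _ b' _ hbb
      simp only [Prod.mk.injEq] at hbb
      obtain ⟨h2, h3⟩ := hbb
      have h4 : cm t (b.1, b.2) = cm t (b'.1, b.2) := by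
        rw [Prod.mk.eta]
        rw [h2, h3]
      exact Prod.ext (h.inj t b.2 b.1 b'.1 h4) h3
    · rintro ⟨l, j⟩ hq
      obtain ⟨l', hl'⟩ := h.surj t j l
      refine ⟨(l', j), ?_, ?_⟩
      · simp only [mem_product, mem_univ, and_true] at hq
        simp only [mem_filter, mem_univ, true_and]
        rw [hl']
        exact hq
      · rw [hl']
  rw [h1, card_product]
  simp

/-- the number of choices of the constraints for which the edges in `T` are satisfied -/
theorem card_fix {E : Type} [Fintype E] {p : ℕ} (T : Finset E) (f : E → Fin p) :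
    (Fintype.piFinset (fun e => if e ∈ T then ({f e} : Finset (Fin p)) else univ)).card =
      p ^ (Fintype.card E - T.card) := by
  rw [Fintype.card_piFinset]
  have h : ∀ e, (if e ∈ T then ({f e} : Finset (Fin p)) else univ).card =
      if e ∈ T then 1 else p := by
    intro e
    split_ifs
    · simp
    · simp
  simp only [h]
  rw [Finset.prod_ite, Finset.prod_const_one, one_mul, Finset.prod_const]
  congr 1
  rw [Finset.filter_not, Finset.filter_mem_eq_inter, Finset.univ_inter,
    Finset.card_sdiff_of_subset (Finset.subset_univ _), Finset.card_univ]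

/-- random constraints give small value, by a union bound -/
theorem Good.small (hg : Good cm D C) (n K : ℕ) (hC : 1 ≤ C) (φ : Fin n → Fin D → Fin n)
    (B : Finset (Fin n)) (h : (d * Fintype.card LL ^ 2) ^ n * 2 ^ (D * n) < C ^ K) :
    ∃ s : Fin n → Fin D → Fin C, ∀ (x : Fin n → LL × Fin d) (y : Fin n → LL),
      (univ.filter fun e : Fin n × Fin D => e.1 ∉ B ∧
        cm ((e.2 : ℕ) * C + (s e.1 e.2 : ℕ)) (x e.1) = y (φ e.1 e.2)).card < K := by
  by_contra hcon
  push Not at hcon
  set f : (Fin n → LL × Fin d) → (Fin n → LL) → (Fin n × Fin D) → Fin C :=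
    fun x y e => if h : ∃ s : Fin C, cm ((e.2 : ℕ) * C + (s : ℕ)) (x e.1) = y (φ e.1 e.2) then
      h.choose else ⟨0, hC⟩ with hf
  have hfu : ∀ x y e (s : Fin C), cm ((e.2 : ℕ) * C + (s : ℕ)) (x e.1) = y (φ e.1 e.2) →
      s = f x y e := by
    intro x y e s hs
    have hex : ∃ s : Fin C, cm ((e.2 : ℕ) * C + (s : ℕ)) (x e.1) = y (φ e.1 e.2) := ⟨s, hs⟩
    have h1 : f x y e = hex.choose := dif_pos hex
    rw [h1]
    exact Fin.ext (hg.one e.2 e.2.2 (x e.1) (y (φ e.1 e.2)) s s.2 hex.choose hex.choose.2 hs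
      hex.choose_spec)
  -- the cover of the set of all choices
  set I : Finset ((Fin n → LL × Fin d) × (Fin n → LL) × Finset (Fin n × Fin D)) :=
    univ ×ˢ (univ ×ˢ powersetCard K univ) with hI
  set F : ((Fin n → LL × Fin d) × (Fin n → LL) × Finset (Fin n × Fin D)) →
      Finset ((Fin n × Fin D) → Fin C) := fun q =>
    Fintype.piFinset (fun e => if e ∈ q.2.2 then ({f q.1 q.2.1 e} : Finset (Fin C)) else univ)
    with hF
  have hcov : (univ : Finset ((Fin n × Fin D) → Fin C)) ⊆ I.biUnion F := by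
    intro s _
    obtain ⟨x, y, hxy⟩ := hcon fun w i => s (w, i)
    obtain ⟨T, hT, hTc⟩ := Finset.exists_subset_card_eq hxy
    rw [Finset.mem_biUnion]
    refine ⟨(x, y, T), ?_, ?_⟩
    · rw [hI]
      simp only [Finset.mem_product, Finset.mem_univ, true_and, Finset.mem_powersetCard]
      exact ⟨Finset.subset_univ _, hTc⟩
    · rw [hF]
      simp only [Fintype.mem_piFinset]
      intro e
      split_ifs with he
      · have h1 := hT he
        rw [Finset.mem_filter] at h1
        rw [Finset.mem_singleton]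
        exact hfu x y e (s e) h1.2.2
      · exact Finset.mem_univ _
  have hFc : ∀ q ∈ I, (F q).card ≤ C ^ (n * D - K) := by
    intro q hq
    rw [hI] at hq
    simp only [Finset.mem_product, Finset.mem_univ, true_and, Finset.mem_powersetCard] at hq
    have h0 := card_fix q.2.2 (f q.1 q.2.1)
    rw [hq.2, Fintype.card_prod, Fintype.card_fin, Fintype.card_fin] at h0
    rw [← h0, hF]
    apply le_of_eq
    congr 1
    ext g
    simp only [Fintype.mem_piFinset]
    refine forall_congr' fun a => ?_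
    by_cases ha : a ∈ q.2.2
    · rw [if_pos ha, if_pos ha]
    · rw [if_neg ha, if_neg ha]
  have h1 : (univ : Finset ((Fin n × Fin D) → Fin C)).card ≤ I.card * C ^ (n * D - K) :=
    (Finset.card_le_card hcov).trans (Finset.card_biUnion_le_card_mul _ _ _ hFc)
  have h2 : (univ : Finset ((Fin n × Fin D) → Fin C)).card = C ^ (n * D) := by
    rw [Finset.card_univ, Fintype.card_fun, Fintype.card_prod, Fintype.card_fin,
      Fintype.card_fin, Fintype.card_fin]
  have h3 : I.card ≤ (d * Fintype.card LL ^ 2) ^ n * 2 ^ (D * n) := by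
    rw [hI, Finset.card_product, Finset.card_product, Finset.card_univ, Finset.card_univ,
      Fintype.card_fun, Fintype.card_fun, Fintype.card_prod, Fintype.card_fin,
      Fintype.card_fin]
    have h4 : (powersetCard K (univ : Finset (Fin n × Fin D))).card ≤ 2 ^ (D * n) := by
      refine (Finset.card_le_card (Finset.subset_univ _)).trans (le_of_eq ?_)
      rw [Finset.card_univ, Fintype.card_finset, Fintype.card_prod, Fintype.card_fin,
        Fintype.card_fin, mul_comm]
    calc (Fintype.card LL * d) ^ n * (Fintype.card LL ^ n *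
          (powersetCard K (univ : Finset (Fin n × Fin D))).card)
        ≤ (Fintype.card LL * d) ^ n * (Fintype.card LL ^ n * 2 ^ (D * n)) := by gcongr
      _ = (d * Fintype.card LL ^ 2) ^ n * 2 ^ (D * n) := by
        rw [← mul_assoc, ← mul_pow]
        congr 2
        ring
  -- `K ≤ n * D`
  have hK : K ≤ n * D := by
    obtain ⟨x, y, hxy⟩ := hcon fun _ _ => ⟨0, hC⟩
    refine hxy.trans ((Finset.card_le_card (Finset.filter_subset _ _)).trans (le_of_eq ?_))
    rw [Finset.card_univ, Fintype.card_prod, Fintype.card_fin, Fintype.card_fin]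
  have hpos : 0 < C ^ (n * D - K) := Nat.pow_pos (by omega)
  have h5 : C ^ (n * D) < C ^ (n * D) := by
    calc C ^ (n * D) ≤ I.card * C ^ (n * D - K) := by rw [← h2]; exact h1
      _ ≤ ((d * Fintype.card LL ^ 2) ^ n * 2 ^ (D * n)) * C ^ (n * D - K) :=
          Nat.mul_le_mul_right _ h3
      _ < C ^ K * C ^ (n * D - K) := Nat.mul_lt_mul_of_pos_right h hpos
      _ = C ^ (n * D) := by rw [← pow_add]; congr 1; omega
  exact lt_irrefl _ h5

/-! ### Mixing -/

theorem Good.grow (hg : Good cm D C) (i j : ℕ) (hi : i < D) (hj : j < D) (hij : i ≠ j) (s s' : ℕ)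
    (hs : s < C) (hs' : s' < C) (R : Finset (LL × Fin d)) (hne : R.Nonempty)
    (hR : ∀ b b', b ∈ R → cm (i * C + s) b = cm (i * C + s) b' → b' ∈ R)
    (t : ℕ) (R' : Finset (LL × Fin d))
    (hR' : ∀ b', b' ∈ R' ↔ ∃ b ∈ R, cm t b' = cm (j * C + s') b) :
    R = univ ∨ R.card < R'.card := by
  by_contra hcon
  push Not at hcon
  obtain ⟨hnu, hle⟩ := hcon
  apply hnu
  set V : Finset LL := R.image (cm (j * C + s')) with hV
  have hR'e : R' = univ.filter fun b : LL × Fin d => cm t b ∈ V := by
    ext b'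
    rw [hR' b']
    simp only [mem_filter, mem_univ, true_and, hV, mem_image]
    constructor
    · rintro ⟨b, hb, h⟩
      exact ⟨b, hb, h.symm⟩
    · rintro ⟨b, hb, h⟩
      exact ⟨b, hb, h.symm⟩
  have hc1 : R'.card = V.card * d := by rw [hR'e, hg.card_fib]
  have hsub : R ⊆ univ.filter fun b : LL × Fin d => cm (j * C + s') b ∈ V := by
    intro b hb
    simp only [mem_filter, mem_univ, true_and, hV]
    exact mem_image_of_mem _ hb
  have hReq : R = univ.filter fun b : LL × Fin d => cm (j * C + s') b ∈ V := by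
    apply eq_of_subset_of_card_le hsub
    rw [hg.card_fib, ← hc1]
    exact hle
  have hRj : ∀ b b', b ∈ R → cm (j * C + s') b = cm (j * C + s') b' → b' ∈ R := by
    intro b b' hb h
    rw [hReq] at hb ⊢
    simp only [mem_filter, mem_univ, true_and] at hb ⊢
    rw [← h]
    exact hb
  exact hg.conn i hi j hj hij s hs s' hs' R hne hR hRj

/-- long nonbacktracking walks do not restrict the labels of their ends -/
theorem Good.mixing (hg : Good cm D C) (hd : 1 ≤ d) (n : ℕ) (φ : Fin n → Fin D → Fin n)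
    (B : Finset (Fin n)) (s : Fin n → Fin D → Fin C) :
    (gg C cm φ B s).Mixing (2 * (d * Fintype.card LL) + 4) := by
  intro u e hJ hne a b
  set G := gg C cm φ B s with hG
  set r := 2 * (d * Fintype.card LL) + 4 with hr
  have h0 : 0 < d := by omega
  -- the number of the constraint on an edge
  set tt : {e : Fin n × Fin D // e.1 ∉ B} → ℕ := fun f =>
    (f.1.2 : ℕ) * C + (s f.1.1 f.1.2 : ℕ) with htt
  -- compatibility
  set K : ℕ → (LL × Fin d) → (LL × Fin d) → Prop := fun k x y =>
    (G.src (e k) = u k → G.rel (e k) x y) ∧ (G.src (e k) = u (k + 1) → G.rel (e k) y x) with hK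
  -- basic facts
  have hsrc : ∀ k, G.src (e k) = Sum.inl (φ (e k).1.1 (e k).1.2) := fun k => rfl
  have htgt : ∀ k, G.tgt (e k) = Sum.inr (e k).1.1 := fun k => rfl
  have hrel : ∀ k (x y : LL × Fin d), G.rel (e k) x y ↔ cm (tt (e k)) y = x.1 :=
    fun k x y => Iff.rfl
  have hdir1 : ∀ k ≤ r, G.src (e k) = u k → u (k + 1) = Sum.inr (e k).1.1 := by
    intro k hk h
    rcases hJ k hk with ⟨_, h2⟩ | ⟨_, h2⟩
    · rw [← h2, htgt]
    · exfalso
      rw [← h] at h2
      exact G.ne (e k) h2.symm
  have hdir2 : ∀ k ≤ r, G.src (e k) = u k → ∀ x y, K k x y ↔ cm (tt (e k)) y = x.1 := by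
    intro k hk h x y
    constructor
    · intro hh
      exact (hrel k x y).1 (hh.1 h)
    · intro hh
      refine ⟨fun _ => (hrel k x y).2 hh, fun h' => ?_⟩
      exfalso
      rw [hdir1 k hk h, hsrc] at h'
      exact Sum.inl_ne_inr h'
  have hdir3 : ∀ k ≤ r, G.src (e k) ≠ u k → ∀ x y, K k x y ↔ cm (tt (e k)) x = y.1 := by
    intro k hk h x y
    have h' : G.src (e k) = u (k + 1) := by
      rcases hJ k hk with ⟨h1, _⟩ | ⟨h1, _⟩
      · exact absurd h1 h
      · exact h1
    constructor
    · intro hh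
      exact (hrel k y x).1 (hh.2 h')
    · intro hh
      exact ⟨fun h2 => absurd h2 h, fun _ => (hrel k y x).2 hh⟩
  have hsurj : ∀ k ≤ r, ∀ y, ∃ x, K k x y := by
    intro k hk y
    by_cases h : G.src (e k) = u k
    · refine ⟨(cm (tt (e k)) y, ⟨0, h0⟩), ?_⟩
      rw [hdir2 k hk h]
    · obtain ⟨l, hl⟩ := hg.surj (tt (e k)) ⟨0, h0⟩ y.1
      refine ⟨(l, ⟨0, h0⟩), ?_⟩
      rw [hdir3 k hk h]
      exact hl
  have hsurj' : ∀ k ≤ r, ∀ x, ∃ y, K k x y := by
    intro k hk x
    by_cases h : G.src (e k) = u k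
    · obtain ⟨l, hl⟩ := hg.surj (tt (e k)) ⟨0, h0⟩ x.1
      refine ⟨(l, ⟨0, h0⟩), ?_⟩
      rw [hdir2 k hk h]
      exact hl
    · refine ⟨(cm (tt (e k)) x, ⟨0, h0⟩), ?_⟩
      rw [hdir3 k hk h]
  -- reachable labels
  set R : ℕ → Finset (LL × Fin d) := fun k =>
    Nat.rec ({a} : Finset (LL × Fin d))
      (fun k Rk => univ.filter fun y => ∃ x ∈ Rk, K k x y) k with hRdef
  have hR0 : R 0 = {a} := rfl
  have hRs : ∀ k, R (k + 1) = univ.filter fun y => ∃ x ∈ R k, K k x y := fun k => rfl
  have hRm : ∀ k y, y ∈ R (k + 1) ↔ ∃ x ∈ R k, K k x y := by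
    intro k y
    rw [hRs k]
    simp
  have hRne : ∀ k ≤ r + 1, (R k).Nonempty := by
    intro k
    induction k with
    | zero =>
      intro _
      exact ⟨a, by rw [hR0]; simp⟩
    | succ k ih =>
      intro hk
      obtain ⟨x, hx⟩ := ih (by omega)
      obtain ⟨y, hy⟩ := hsurj' k (by omega) x
      exact ⟨y, (hRm k y).2 ⟨x, hx, hy⟩⟩
  have hRuniv : ∀ k ≤ r, R k = univ → R (k + 1) = univ := by
    intro k hk h
    ext y
    simp only [mem_univ, iff_true]
    obtain ⟨x, hx⟩ := hsurj k hk y
    exact (hRm k y).2 ⟨x, by rw [h]; simp, hx⟩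
  have hRuniv' : ∀ m k, k + m ≤ r + 1 → R k = univ → R (k + m) = univ := by
    intro m
    induction m with
    | zero =>
      intro k _ h
      simpa using h
    | succ m ih =>
      intro k hk h
      have h1 := ih k (by omega) h
      have h2 := hRuniv (k + m) (by omega) h1
      exact h2
  -- one round
  have hstep : ∀ k, k + 2 ≤ r → G.src (e k) = u k → G.src (e (k + 2)) = u (k + 2) ∧
      (R (k + 1) = univ ∨ (R (k + 1)).card < (R (k + 3)).card) := by
    intro k hk hd1
    have hu1 := hdir1 k (by omega) hd1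
    have hk1 : G.src (e (k + 1)) ≠ u (k + 1) := by
      rw [hu1, hsrc]
      exact Sum.inl_ne_inr
    have hJ1 : G.src (e (k + 1)) = u (k + 2) ∧ G.tgt (e (k + 1)) = u (k + 1) := by
      rcases hJ (k + 1) (by omega) with ⟨h1, _⟩ | ⟨h1, h2⟩
      · exact absurd h1 hk1
      · exact ⟨h1, h2⟩
    have hw : (e (k + 1)).1.1 = (e k).1.1 := by
      have h2 := hJ1.2
      rw [hu1, htgt] at h2
      exact Sum.inr_injective h2
    have hidx : (e k).1.2 ≠ (e (k + 1)).1.2 := by
      intro h
      apply hne k (by omega)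
      apply Subtype.ext
      exact Prod.ext hw.symm h
    have hij : ((e k).1.2 : ℕ) ≠ ((e (k + 1)).1.2 : ℕ) := fun h => hidx (Fin.ext h)
    have hk2 : G.src (e (k + 2)) = u (k + 2) := by
      rcases hJ (k + 2) hk with ⟨h1, _⟩ | ⟨_, h2⟩
      · exact h1
      · exfalso
        rw [← hJ1.1, htgt, hsrc] at h2
        exact Sum.inl_ne_inr h2.symm
    refine ⟨hk2, ?_⟩
    have hc := hdir2 k (by omega) hd1
    have hc1 := hdir3 (k + 1) (by omega) hk1
    have hc2 := hdir2 (k + 2) hk hk2
    apply hg.grow ((e k).1.2 : ℕ) ((e (k + 1)).1.2 : ℕ) (e k).1.2.2 (e (k + 1)).1.2.2 hij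
      (s (e k).1.1 (e k).1.2 : ℕ) (s (e (k + 1)).1.1 (e (k + 1)).1.2 : ℕ)
      (s (e k).1.1 (e k).1.2).2 (s (e (k + 1)).1.1 (e (k + 1)).1.2).2 (R (k + 1))
      (hRne (k + 1) (by omega)) ?_ (tt (e (k + 2))) (R (k + 3)) ?_
    · intro y y' hy hyy
      rw [hRm] at hy ⊢
      obtain ⟨x, hx, hxy⟩ := hy
      refine ⟨x, hx, ?_⟩
      rw [hc] at hxy ⊢
      rw [← hxy]
      exact hyy.symm
    · intro y'
      rw [hRm (k + 2)]
      constructor
      · rintro ⟨x, hx, hxy⟩
        rw [hRm (k + 1)] at hx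
        obtain ⟨y, hy, hyx⟩ := hx
        refine ⟨y, hy, ?_⟩
        rw [hc2] at hxy
        rw [hc1] at hyx
        rw [hxy, ← hyx]
      · rintro ⟨y, hy, hyy⟩
        refine ⟨(cm (tt (e (k + 1))) y, ⟨0, h0⟩), ?_, ?_⟩
        · rw [hRm (k + 1)]
          refine ⟨y, hy, ?_⟩
          rw [hc1]
        · rw [hc2]
          exact hyy
  -- all rounds
  have hcard : Fintype.card (LL × Fin d) = d * Fintype.card LL := by
    rw [Fintype.card_prod, Fintype.card_fin, mul_comm]
  have hiter : ∀ k0 ≤ 1, G.src (e k0) = u k0 → ∀ t ≤ d * Fintype.card LL,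
      G.src (e (k0 + 2 * t)) = u (k0 + 2 * t) ∧
      (R (k0 + 2 * t + 1) = univ ∨ t + 1 ≤ (R (k0 + 2 * t + 1)).card) := by
    intro k0 hk0 hd0 t
    induction t with
    | zero =>
      intro _
      refine ⟨by simpa using hd0, Or.inr ?_⟩
      have := (hRne (k0 + 1) (by omega)).card_pos
      simpa using this
    | succ t ih =>
      intro ht
      obtain ⟨h1, h2⟩ := ih (by omega)
      have h3 := hstep (k0 + 2 * t) (by omega) h1
      have he : k0 + 2 * (t + 1) = k0 + 2 * t + 2 := by ring
      rw [he]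
      refine ⟨h3.1, ?_⟩
      rcases h2 with h2 | h2
      · left
        have := hRuniv' 2 (k0 + 2 * t + 1) (by omega) h2
        exact this
      · rcases h3.2 with h4 | h4
        · left
          exact hRuniv' 2 (k0 + 2 * t + 1) (by omega) h4
        · right
          have h5 : k0 + 2 * t + 3 = k0 + 2 * t + 2 + 1 := by ring
          rw [h5] at h4
          omega
  have hk0 : ∃ k0 ≤ 1, G.src (e k0) = u k0 := by
    by_cases h : G.src (e 0) = u 0
    · exact ⟨0, by omega, h⟩
    · refine ⟨1, le_refl _, ?_⟩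
      rcases hJ 0 (by omega) with ⟨h1, _⟩ | ⟨h1, _⟩
      · exact absurd h1 h
      · rcases hJ 1 (by omega) with ⟨h2, _⟩ | ⟨_, h2⟩
        · exact h2
        · exfalso
          rw [zero_add] at h1
          rw [← h1, htgt, hsrc] at h2
          exact Sum.inl_ne_inr h2.symm
  obtain ⟨k0, hk0, hd0⟩ := hk0
  have hfin : R (k0 + 2 * (d * Fintype.card LL) + 1) = univ := by
    rcases (hiter k0 hk0 hd0 (d * Fintype.card LL) (le_refl _)).2 with h | h
    · exact h
    · exfalso
      have h1 := Finset.card_le_univ (R (k0 + 2 * (d * Fintype.card LL) + 1))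
      rw [hcard] at h1
      omega
  have hlast : R (r + 1) = univ := by
    have h := hRuniv' (r + 1 - (k0 + 2 * (d * Fintype.card LL) + 1))
      (k0 + 2 * (d * Fintype.card LL) + 1) (by omega) hfin
    have he : k0 + 2 * (d * Fintype.card LL) + 1 + (r + 1 - (k0 + 2 * (d * Fintype.card LL) + 1))
        = r + 1 := by omega
    rw [he] at h
    exact h
  -- going back
  have hback : ∀ k, ∀ y ∈ R k, ∃ c : ℕ → LL × Fin d, c 0 = a ∧ c k = y ∧
      ∀ j < k, K j (c j) (c (j + 1)) := by
    intro k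
    induction k with
    | zero =>
      intro y hy
      rw [hR0, mem_singleton] at hy
      exact ⟨fun _ => a, rfl, hy.symm, fun j hj => absurd hj (Nat.not_lt_zero j)⟩
    | succ k ih =>
      intro y hy
      obtain ⟨x, hx, hxy⟩ := (hRm k y).1 hy
      obtain ⟨c, hc0, hck, hcj⟩ := ih x hx
      refine ⟨fun m => if m = k + 1 then y else c m, ?_, ?_, ?_⟩
      · simp [hc0]
      · simp
      · intro j hj
        rcases Nat.lt_succ_iff_lt_or_eq.1 hj with h | h
        · have h1 : j ≠ k + 1 := by omega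
          have h2 : j + 1 ≠ k + 1 := by omega
          simp only [if_neg h1, if_neg h2]
          exact hcj j h
        · subst h
          have h1 : j ≠ j + 1 := by omega
          simp only [if_neg h1, if_true]
          rw [hck]
          exact hxy
  obtain ⟨c, hc0, hcr, hcj⟩ := hback (r + 1) b (by rw [hlast]; simp)
  exact ⟨c, hc0, hcr, fun k hk => hcj k (by omega)⟩

end

end Pool.Agent.NH48.DA
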