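import Pool.Agent.NH48.DA.Fam
import Pool.Agent.H589R3.DT.Game

/-! # The host game for a family of constraint maps -/

open scoped Classical
open Finset

namespace Pool.Agent.NH48.DA

open H589DT
open H630VC (Prog marked)

section

variable {LL : Type} [Fintype LL] {n D d m N C : ℕ}

/-- left labels -/
noncomputable def eL (LL : Type) [Fintype LL] : LL ≃ Fin (Fintype.card LL) :=
  Fintype.equivFin LL

/-- right labels -/
noncomputable def eR (LL : Type) [Fintype LL] (d : ℕ) : (LL × Fin d) ≃ Fin (d * Fintype.card LL) :=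
  Fintype.equivFinOfCardEq (by rw [Fintype.card_prod, Fintype.card_fin, mul_comm])

/-- the constraint map with the number `t` -/
noncomputable def cmap (cm : ℕ → LL × Fin d → LL) (t : ℕ) :
    Fin (d * Fintype.card LL) → Fin (Fintype.card LL) :=
  fun b => eL LL (cm t ((eR LL d).symm b))

theorem cmap_fib {cm : ℕ → LL × Fin d → LL}
    (hinj : ∀ t j l l', cm t (l, j) = cm t (l', j) → l = l') (t : ℕ) (a : Fin (Fintype.card LL)) :
    (univ.filter fun b => cmap cm t b = a).card ≤ d := by
  have h : ((univ.filter fun b => cmap cm t b = a).image fun b => ((eR LL d).symm b).2).card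
      = (univ.filter fun b => cmap cm t b = a).card := by
    apply card_image_of_injOn
    intro b hb c hc hbc
    have hb' : cmap cm t b = a := (mem_filter.1 (mem_coe.1 hb)).2
    have hc' : cmap cm t c = a := (mem_filter.1 (mem_coe.1 hc)).2
    have h1 := (eL LL).injective (hb'.trans hc'.symm)
    have hbc' : ((eR LL d).symm b).2 = ((eR LL d).symm c).2 := hbc
    have h3 : cm t (((eR LL d).symm b).1, ((eR LL d).symm b).2) =
        cm t (((eR LL d).symm c).1, ((eR LL d).symm b).2) := by
      rw [Prod.mk.eta, h1, hbc', Prod.mk.eta]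
    have h2 := hinj t _ _ _ h3
    exact (eR LL d).symm.injective (Prod.ext h2 hbc')
  rw [← h]
  exact (card_le_univ _).trans (by rw [Fintype.card_fin])

variable (cm : ℕ → LL × Fin d → LL) (hinj : ∀ t j l l', cm t (l, j) = cm t (l', j) → l = l')
  (φ : Fin n → Fin D → Fin n) (B : Finset (Fin n)) (s : Fin n → Fin D → Fin C)
  (ιV ιW : Option (Fin n × Fin m) ↪ Fin N)

/-- the number of the constraint map between two vertices of the host -/
noncomputable def hnum (v w : Fin N) : ℕ :=
  if h : ∃ c, isEdge φ B ιV ιW c v w then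
    (h.choose.1.1.2 : ℕ) * C + (s h.choose.1.1.1 h.choose.1.1.2 : ℕ)
  else 0

/-- the game given by a set of host constraints -/
noncomputable def hostInst (H : Finset (EE D B × Fin m × Fin m)) :
    DGame (Fin N) (Fin N) d (Fintype.card LL) where
  adj v w := (v = ιV none ∧ w = ιW none) ∨ ∃ c ∈ H, isEdge φ B ιV ιW c v w
  map v w := cmap cm (hnum φ B s ιV ιW v w)
  fib _ _ _ a := cmap_fib hinj _ a

variable {cm hinj φ B s ιV ιW}

theorem hnum_of_isEdge (hφ : ∀ w i j, w ∉ B → φ w i = φ w j → i = j)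
    {c : EE D B × Fin m × Fin m} {v w : Fin N} (h : isEdge φ B ιV ιW c v w) :
    hnum φ B s ιV ιW v w = (c.1.1.2 : ℕ) * C + (s c.1.1.1 c.1.1.2 : ℕ) := by
  unfold hnum
  have hex : ∃ c, isEdge φ B ιV ιW c v w := ⟨c, h⟩
  rw [dif_pos hex]
  have := isEdge_unique hφ hex.choose_spec h
  rw [this]

/-- the constraint bits are host inputs -/
theorem hostInputs (hφ : ∀ w i j, w ∉ B → φ w i = φ w j → i = j) :
    HostInputs (hostInst cm hinj φ B s ιV ιW) (dInputs (Fin N) (Fin N) d (Fintype.card LL)) := by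
  rintro g (⟨v, w, q, rfl⟩ | ⟨c, rfl⟩)
  · by_cases h0 : v = ιV none ∧ w = ιW none
    · left
      refine ⟨if cmap cm (hnum φ B s ιV ιW v w) = q then 1 else 0, fun H => ?_⟩
      have : (hostInst cm hinj φ B s ιV ιW H).adj v w := Or.inl h0
      simp only [this, true_and]
      rfl
    · by_cases h1 : ∃ c, isEdge φ B ιV ιW c v w
      · obtain ⟨c, hc⟩ := h1
        by_cases hq : cmap cm (hnum φ B s ιV ιW v w) = q
        · right
          refine ⟨c, fun H => ?_⟩
          have e1 : ((hostInst cm hinj φ B s ιV ιW H).adj v w ∧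
              (hostInst cm hinj φ B s ιV ιW H).map v w = q) ↔ c ∈ H := by
            constructor
            · rintro ⟨h | ⟨c', hc', h'⟩, -⟩
              · exact absurd h h0
              · rw [isEdge_unique hφ hc h']
                exact hc'
            · intro h
              exact ⟨Or.inr ⟨c, h, hc⟩, hq⟩
          by_cases h : c ∈ H
          · rw [if_pos h]
            exact if_pos (e1.2 h)
          · rw [if_neg h]
            exact if_neg fun h' => h (e1.1 h')
        · left
          refine ⟨0, fun H => ?_⟩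
          have e1 : ¬ ((hostInst cm hinj φ B s ιV ιW H).adj v w ∧
              (hostInst cm hinj φ B s ιV ιW H).map v w = q) := fun h => hq h.2
          simp only [e1, if_false]
      · left
        refine ⟨0, fun H => ?_⟩
        have e1 : ¬ ((hostInst cm hinj φ B s ιV ιW H).adj v w ∧
            (hostInst cm hinj φ B s ιV ιW H).map v w = q) := by
          rintro ⟨h | ⟨c', _, h'⟩, -⟩
          · exact h0 h
          · exact h1 ⟨c', h'⟩
        simp only [e1, if_false]
  · exact Or.inl ⟨c, fun _ => rfl⟩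

/-- host games without conflicts have value one -/
theorem host_yes (m0 : LL × Fin d) (hφ : ∀ w i j, w ∉ B → φ w i = φ w j → i = j)
    (T : Finset (((Fin n ⊕ Fin n) × Fin m) × (LL × Fin d))) (hT0 : NoConflict T) :
    DYes (hostInst cm hinj φ B s ιV ιW (hT (gg C cm φ B s) T)) := by
  refine ⟨⟨ιV none, ιW none, Or.inl ⟨rfl, rfl⟩⟩, ?_⟩
  -- the labels
  let gV : Option (Fin n × Fin m) → Fin (Fintype.card LL) := fun o => match o with
    | none => eL LL (cm 0 m0)
    | some q => eL LL (labOf T m0 (Sum.inl q.1, q.2)).1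
  let gW : Option (Fin n × Fin m) → Fin (d * Fintype.card LL) := fun o => match o with
    | none => eR LL d m0
    | some q => eR LL d (labOf T m0 (Sum.inr q.1, q.2))
  refine ⟨Function.extend ιV gV fun _ => eL LL (cm 0 m0), Function.extend ιW gW fun _ => eR LL d m0,
    ?_⟩
  rintro v w (⟨rfl, rfl⟩ | ⟨c, hc, hcv, hcw⟩)
  · rw [ιV.injective.extend_apply, ιW.injective.extend_apply]
    show cmap cm (hnum φ B s ιV ιW (ιV none) (ιW none)) (eR LL d m0) = eL LL (cm 0 m0)
    unfold hnum
    rw [dif_neg (by rintro ⟨c, hc⟩; exact not_isEdge_none hc)]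
    simp [cmap]
  · have hm : (hostInst cm hinj φ B s ιV ιW (hT (gg C cm φ B s) T)).map v w
        = cmap cm ((c.1.1.2 : ℕ) * C + (s c.1.1.1 c.1.1.2 : ℕ)) := by
      show cmap cm (hnum φ B s ιV ιW v w) = _
      rw [hnum_of_isEdge hφ ⟨hcv, hcw⟩]
    rw [hm, hcv, hcw, ιV.injective.extend_apply, ιW.injective.extend_apply]
    obtain ⟨σ, τ, h1, h2, h3⟩ := mem_hT.1 hc
    have e1 : labOf T m0 (Sum.inl (φ c.1.1.1 c.1.1.2), c.2.1) = σ := labOf_eq hT0 h1
    have e2 : labOf T m0 (Sum.inr c.1.1.1, c.2.2) = τ := labOf_eq hT0 h2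
    show cmap cm _ (eR LL d (labOf T m0 (Sum.inr c.1.1.1, c.2.2)))
      = eL LL (labOf T m0 (Sum.inl (φ c.1.1.1 c.1.1.2), c.2.1)).1
    rw [e1, e2]
    unfold cmap
    rw [Equiv.symm_apply_apply]
    congr 1

theorem adj_iff (x : Fin n ⊕ Fin n → Fin m) (v w : Fin N) :
    (hostInst cm hinj φ B s ιV ιW (hx (gg C cm φ B s) x)).adj v w ↔
      ∃ o, edgeOf φ B ιV ιW x o = (v, w) := by
  constructor
  · rintro (⟨rfl, rfl⟩ | ⟨c, hc, hcv, hcw⟩)
    · exact ⟨none, rfl⟩
    · refine ⟨some c.1, ?_⟩
      have h := mem_hx.1 hc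
      rw [hcv, hcw]
      simp only [edgeOf]
      rw [h.1, h.2]
      rfl
  · rintro ⟨_ | e, h⟩
    · have h1 := (Prod.mk.inj h).1
      have h2 := (Prod.mk.inj h).2
      exact Or.inl ⟨h1.symm, h2.symm⟩
    · have h1 := (Prod.mk.inj h).1
      have h2 := (Prod.mk.inj h).2
      refine Or.inr ⟨(e, x (Sum.inl (φ e.1.1 e.1.2)), x (Sum.inr e.1.1)), ?_, h1.symm, h2.symm⟩
      exact mem_hx.2 ⟨rfl, rfl⟩

/-- copies of the game graph have small value -/
theorem host_no (hφ : ∀ w i j, w ∉ B → φ w i = φ w j → i = j) (ε : ℝ) (K : ℕ)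
    (hK : (K : ℝ) < ε * ((Fintype.card (EE D B) : ℝ) + 1))
    (hs : ∀ (x : Fin n → LL × Fin d) (y : Fin n → LL),
      (univ.filter fun e : Fin n × Fin D => e.1 ∉ B ∧
        cm ((e.2 : ℕ) * C + (s e.1 e.2 : ℕ)) (x e.1) = y (φ e.1 e.2)).card < K)
    (x : Fin n ⊕ Fin n → Fin m) :
    DNo ε (hostInst cm hinj φ B s ιV ιW (hx (gg C cm φ B s) x)) := by
  intro A Cc
  set I := hostInst cm hinj φ B s ιV ιW (hx (gg C cm φ B s) x) with hI
  have hE : (univ.filter fun e : Fin N × Fin N => I.adj e.1 e.2).card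
      = Fintype.card (EE D B) + 1 := by
    have h1 : (univ.filter fun e : Fin N × Fin N => I.adj e.1 e.2)
        = univ.image (edgeOf φ B ιV ιW x) := by
      ext ⟨v, w⟩
      simp only [mem_filter, mem_univ, true_and, mem_image]
      exact adj_iff x v w
    rw [h1, card_image_of_injective _ (edgeOf_inj hφ x), card_univ, Fintype.card_option]
  let xx : Fin n → LL × Fin d := fun w => (eR LL d).symm (Cc (ιW (some (w, x (Sum.inr w)))))
  let yy : Fin n → LL := fun v => (eL LL).symm (A (ιV (some (v, x (Sum.inl v)))))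
  have hS : (univ.filter fun e : Fin N × Fin N => I.adj e.1 e.2 ∧
      I.map e.1 e.2 (Cc e.2) = A e.1).card ≤ K := by
    have h2 : (univ.filter fun e : Fin N × Fin N => I.adj e.1 e.2 ∧
        I.map e.1 e.2 (Cc e.2) = A e.1) ⊆ insert (ιV none, ιW none)
        ((univ.filter fun e : Fin n × Fin D => e.1 ∉ B ∧
        cm ((e.2 : ℕ) * C + (s e.1 e.2 : ℕ)) (xx e.1)
          = yy (φ e.1 e.2)).image fun e => (ιV (some (φ e.1 e.2, x (Sum.inl (φ e.1 e.2)))),
            ιW (some (e.1, x (Sum.inr e.1))))) := by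
      rintro ⟨v, w⟩ hvw
      simp only [mem_filter, mem_univ, true_and] at hvw
      obtain ⟨hadj, hmap⟩ := hvw
      rw [mem_insert]
      rcases hadj with ⟨rfl, rfl⟩ | ⟨c, hc, hcv, hcw⟩
      · exact Or.inl rfl
      · right
        rw [mem_image]
        have h := mem_hx.1 hc
        have e1 : c.2.1 = x (Sum.inl (φ c.1.1.1 c.1.1.2)) := h.1
        have e2 : c.2.2 = x (Sum.inr c.1.1.1) := h.2
        refine ⟨c.1.1, ?_, ?_⟩
        · rw [mem_filter]
          refine ⟨mem_univ _, c.1.2, ?_⟩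
          have hm : I.map v w = cmap cm ((c.1.1.2 : ℕ) * C + (s c.1.1.1 c.1.1.2 : ℕ)) := by
            show cmap cm (hnum φ B s ιV ιW v w) = _
            rw [hnum_of_isEdge hφ ⟨hcv, hcw⟩]
          rw [hm] at hmap
          show cm _ (xx c.1.1.1) = (eL LL).symm (A (ιV (some (φ c.1.1.1 c.1.1.2,
            x (Sum.inl (φ c.1.1.1 c.1.1.2))))))
          rw [← e1, ← hcv, ← hmap]
          unfold cmap
          rw [Equiv.symm_apply_apply, hcw, e2]
        · rw [← e1, ← e2, ← hcv, ← hcw]
    refine (card_le_card h2).trans ((card_insert_le _ _).trans ?_)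
    have h3 := hs xx yy
    have h4 := card_image_le (s := (univ.filter fun e : Fin n × Fin D => e.1 ∉ B ∧
        cm ((e.2 : ℕ) * C + (s e.1 e.2 : ℕ)) (xx e.1)
          = yy (φ e.1 e.2))) (f := fun e => (ιV (some (φ e.1 e.2, x (Sum.inl (φ e.1 e.2)))),
            ιW (some (e.1, x (Sum.inr e.1)))))
    omega
  rw [hE]
  push_cast
  exact lt_of_le_of_lt (by exact_mod_cast hS) hK

end

end Pool.Agent.NH48.DA
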