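import Pool.Agent.H589R3.DT.GameDefs

/-!
# The linear relaxations of a d-to-1 game: definitions
-/

open scoped Classical
open Finset

namespace Pool.Agent.NH48.DA

open H589DT

/-- `x`, `y` solve the linear system of the game `I` over `K`: weights `x v` of the labels of the
left vertices and `y w` of the labels of the right vertices with sum one at each vertex, such that
for each edge `v`, `w` the image of the weights `y w` under the constraint map is `x v` -/
def LinSol {V W : Type} {d R : ℕ} (K : Type) [CommRing K] (I : DGame V W d R)
    (x : V → Fin R → K) (y : W → Fin (d * R) → K) : Prop :=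
  (∀ v, ∑ a, x v a = 1) ∧ (∀ w, ∑ b, y w b = 1) ∧
    ∀ v w, I.adj v w → ∀ a, ∑ b with I.map v w b = a, y w b = x v a

/-- the game is accepted by the combined relaxation BLP+AIP: the linear system of the game has a
solution in nonnegative rational numbers (this is the basic linear programming relaxation), and an
integral solution that is zero wherever the nonnegative solution is zero (this is the affine integer
programming relaxation) -/
def BlpAip {V W : Type} {d R : ℕ} (I : DGame V W d R) : Prop :=
  ∃ (x : V → Fin R → ℚ) (y : W → Fin (d * R) → ℚ) (x' : V → Fin R → ℤ) (y' : W → Fin (d * R) → ℤ),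
    LinSol ℚ I x y ∧ LinSol ℤ I x' y' ∧ (∀ v a, 0 ≤ x v a) ∧ (∀ w b, 0 ≤ y w b) ∧
    (∀ v a, x v a = 0 → x' v a = 0) ∧ ∀ w b, y w b = 0 → y' w b = 0

/-- a labelling of some of the vertices of a game -/
structure PLab (V W : Type) (d R : ℕ) where
  /-- labels of left vertices -/
  left : V → Option (Fin R)
  /-- labels of right vertices -/
  right : W → Option (Fin (d * R))

/-- the number of labelled vertices -/
noncomputable def PLab.size {V W : Type} [Fintype V] [Fintype W] {d R : ℕ} (f : PLab V W d R) : ℕ :=
  (univ.filter fun v => f.left v ≠ none).card + (univ.filter fun w => f.right w ≠ none).card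

/-- `g` extends `f` -/
def PLab.Le {V W : Type} {d R : ℕ} (f g : PLab V W d R) : Prop :=
  (∀ v a, f.left v = some a → g.left v = some a) ∧ ∀ w b, f.right w = some b → g.right w = some b

/-- the game passes the test of `k`-consistency: there is a nonempty set of labellings of at most
`k` vertices that satisfy all edges inside their domains, which is closed under restriction, and in
which each labelling of less than `k` vertices can be extended to each further vertex -/
def KCons {V W : Type} [Fintype V] [Fintype W] {d R : ℕ} (k : ℕ) (I : DGame V W d R) : Prop :=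
  ∃ F : Set (PLab V W d R), F.Nonempty ∧
    (∀ f ∈ F, f.size ≤ k) ∧
    (∀ f ∈ F, ∀ v w a b, I.adj v w → f.left v = some a → f.right w = some b → I.map v w b = a) ∧
    (∀ f ∈ F, ∀ g, g.Le f → g ∈ F) ∧
    (∀ f ∈ F, f.size < k → (∀ v, ∃ g ∈ F, f.Le g ∧ g.left v ≠ none) ∧
      ∀ w, ∃ g ∈ F, f.Le g ∧ g.right w ≠ none)

/-- the functions of the game that do not distinguish any two games that are accepted by BLP+AIP and
pass the test of `k`-consistency -/
def Blind (V W : Type) [Fintype V] [Fintype W] (d R k : ℕ) : Set (DGame V W d R → ℝ) :=
  {f | ∃ c : ℝ, ∀ I, BlpAip I → KCons k I → f I = c}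

end Pool.Agent.NH48.DA
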