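import Pool.Agent.NH48.DA.Host
import Pool.Agent.NH48.DA.Relax

/-! # Local consistency of the host games -/

open scoped Classical
open Finset

namespace Pool.Agent.NH48.DA

open H589DT
open H630VC (Prog marked)

theorem mem_ein' {U E Λ : Type} [Fintype U] [Fintype E] {G : CGraph U E Λ} {S : Finset U} {e : E} :
    e ∈ G.ein S ↔ G.src e ∈ S ∧ G.tgt e ∈ S := by
  simp [CGraph.ein]

section

variable {LL : Type} [Fintype LL] {n D d m N C : ℕ}

/-- the vertex of the constraint graph below a left vertex of the host -/
noncomputable def undV (ιV : Option (Fin n × Fin m) ↪ Fin N) (v : Fin N) :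
    Option (Fin n ⊕ Fin n) :=
  if h : ∃ q : Fin n × Fin m, ιV (some q) = v then some (Sum.inl h.choose.1) else none

/-- the vertex of the constraint graph below a right vertex of the host -/
noncomputable def undW (ιW : Option (Fin n × Fin m) ↪ Fin N) (w : Fin N) :
    Option (Fin n ⊕ Fin n) :=
  if h : ∃ q : Fin n × Fin m, ιW (some q) = w then some (Sum.inr h.choose.1) else none

theorem undV_some (ιV : Option (Fin n × Fin m) ↪ Fin N) (q : Fin n × Fin m) :
    undV ιV (ιV (some q)) = some (Sum.inl q.1) := by
  unfold undV
  have hex : ∃ q' : Fin n × Fin m, ιV (some q') = ιV (some q) := ⟨q, rfl⟩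
  rw [dif_pos hex]
  have h := Option.some.inj (ιV.injective hex.choose_spec)
  rw [h]

theorem undW_some (ιW : Option (Fin n × Fin m) ↪ Fin N) (q : Fin n × Fin m) :
    undW ιW (ιW (some q)) = some (Sum.inr q.1) := by
  unfold undW
  have hex : ∃ q' : Fin n × Fin m, ιW (some q') = ιW (some q) := ⟨q, rfl⟩
  rw [dif_pos hex]
  have h := Option.some.inj (ιW.injective hex.choose_spec)
  rw [h]

theorem undV_none (ιV : Option (Fin n × Fin m) ↪ Fin N) : undV ιV (ιV none) = none := by
  unfold undV
  rw [dif_neg]
  rintro ⟨q, hq⟩
  have := ιV.injective hq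
  simp at this

theorem undW_none (ιW : Option (Fin n × Fin m) ↪ Fin N) : undW ιW (ιW none) = none := by
  unfold undW
  rw [dif_neg]
  rintro ⟨q, hq⟩
  have := ιW.injective hq
  simp at this

/-- the labels of the left vertices of the host -/
noncomputable def labV (cm : ℕ → LL × Fin d → LL) (m0 : LL × Fin d)
    (ιV : Option (Fin n × Fin m) ↪ Fin N) (ρ : Fin n ⊕ Fin n → LL × Fin d) (v : Fin N) :
    Fin (Fintype.card LL) :=
  match undV ιV v with
  | none => eL LL (cm 0 m0)
  | some u => eL LL (ρ u).1

/-- the labels of the right vertices of the host -/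
noncomputable def labW (m0 : LL × Fin d)
    (ιW : Option (Fin n × Fin m) ↪ Fin N) (ρ : Fin n ⊕ Fin n → LL × Fin d) (w : Fin N) :
    Fin (d * Fintype.card LL) :=
  match undW ιW w with
  | none => eR LL d m0
  | some u => eR LL d (ρ u)

/-- the vertices of the constraint graph below the labelled vertices -/
noncomputable def below {R : ℕ} (ιV ιW : Option (Fin n × Fin m) ↪ Fin N)
    (f : PLab (Fin N) (Fin N) d R) : Finset (Fin n ⊕ Fin n) :=
  univ.filter fun u => (∃ v, f.left v ≠ none ∧ undV ιV v = some u) ∨
    ∃ w, f.right w ≠ none ∧ undW ιW w = some u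

theorem below_card {R : ℕ} (ιV ιW : Option (Fin n × Fin m) ↪ Fin N)
    (f : PLab (Fin N) (Fin N) d R) : (below ιV ιW f).card ≤ f.size := by
  have h1 : (below ιV ιW f).card ≤
      (((univ.filter fun v => f.left v ≠ none).image (undV ιV)) ∪
        ((univ.filter fun w => f.right w ≠ none).image (undW ιW))).card := by
    refine le_trans (le_of_eq (card_image_of_injective (below ιV ιW f)
      (Option.some_injective _)).symm) (card_le_card ?_)
    intro o ho
    rw [mem_image] at ho
    obtain ⟨u, hu, rfl⟩ := ho
    rw [below, mem_filter] at hu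
    rw [mem_union, mem_image, mem_image]
    rcases hu.2 with ⟨v, h2, h3⟩ | ⟨w, h2, h3⟩
    · exact Or.inl ⟨v, mem_filter.2 ⟨mem_univ _, h2⟩, h3⟩
    · exact Or.inr ⟨w, mem_filter.2 ⟨mem_univ _, h2⟩, h3⟩
  refine h1.trans ((card_union_le _ _).trans ?_)
  unfold PLab.size
  exact Nat.add_le_add card_image_le card_image_le

/-- the host games pass the test of `k`-consistency -/
theorem host_kcons {cm : ℕ → LL × Fin d → LL}
    {hinj : ∀ t j l l', cm t (l, j) = cm t (l', j) → l = l'}
    {φ : Fin n → Fin D → Fin n} {B : Finset (Fin n)} {s : Fin n → Fin D → Fin C}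
    {ιV ιW : Option (Fin n × Fin m) ↪ Fin N}
    (m0 : LL × Fin d) (hφ : ∀ w i j, w ∉ B → φ w i = φ w j → i = j) (k K : ℕ) (hk : k ≤ K)
    (F : Local (Fin n ⊕ Fin n) (LL × Fin d) K)
    (hF : ∀ S ρ, F.C S ρ → (gg C cm φ B s).SatOn S ρ)
    (H : Finset (EE D B × Fin m × Fin m)) :
    KCons k (hostInst cm hinj φ B s ιV ιW H) := by
  refine ⟨{f | f.size ≤ k ∧ ∃ ρ, F.C (below ιV ιW f) ρ ∧
    (∀ v a, f.left v = some a → a = labV cm m0 ιV ρ v) ∧
    ∀ w b, f.right w = some b → b = labW m0 ιW ρ w}, ?_, ?_, ?_, ?_, ?_⟩
  · refine ⟨⟨fun _ => none, fun _ => none⟩, ?_, ?_⟩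
    · simp [PLab.size]
    · obtain ⟨ρ, hρ⟩ := F.empty
      refine ⟨ρ, ?_, ?_, ?_⟩
      · have : below ιV ιW (⟨fun _ => none, fun _ => none⟩ :
            PLab (Fin N) (Fin N) d (Fintype.card LL)) = ∅ := by
          rw [below, filter_eq_empty_iff]
          simp
        rw [this]
        exact hρ
      · intro v a h
        simp at h
      · intro w b h
        simp at h
  · intro f hf
    exact hf.1
  · rintro f ⟨-, ρ, hρ, h1, h2⟩ v w a b hadj hv hw
    have ea := h1 v a hv
    have eb := h2 w b hw
    rw [ea, eb]
    rcases hadj with ⟨rfl, rfl⟩ | ⟨c, -, hcv, hcw⟩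
    · show cmap cm (hnum φ B s ιV ιW (ιV none) (ιW none)) (labW m0 ιW ρ (ιW none)) =
        labV cm m0 ιV ρ (ιV none)
      unfold hnum
      rw [dif_neg (by rintro ⟨c, hc⟩; exact not_isEdge_none hc)]
      unfold labV labW
      rw [undV_none, undW_none]
      simp [cmap]
    · show cmap cm (hnum φ B s ιV ιW v w) (labW m0 ιW ρ w) = labV cm m0 ιV ρ v
      rw [hnum_of_isEdge hφ ⟨hcv, hcw⟩]
      have hS := hF _ _ hρ c.1 (mem_ein'.2 ⟨?_, ?_⟩)
      · have e1 : labW m0 ιW ρ w = eR LL d (ρ (Sum.inr c.1.1.1)) := by
          unfold labW
          rw [hcw, undW_some]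
        have e2 : labV cm m0 ιV ρ v = eL LL (ρ (Sum.inl (φ c.1.1.1 c.1.1.2))).1 := by
          unfold labV
          rw [hcv, undV_some]
        rw [e1, e2]
        unfold cmap
        rw [Equiv.symm_apply_apply]
        exact congrArg (eL LL) hS
      · refine mem_filter.2 ⟨mem_univ _, Or.inl ⟨v, ?_, ?_⟩⟩
        · rw [hv]; simp
        · rw [hcv, undV_some]
          rfl
      · refine mem_filter.2 ⟨mem_univ _, Or.inr ⟨w, ?_, ?_⟩⟩
        · rw [hw]; simp
        · rw [hcw, undW_some]
          rfl
  · rintro f ⟨hsz, ρ, hρ, h1, h2⟩ g ⟨hg1, hg2⟩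
    have hgv : ∀ v, g.left v ≠ none → f.left v ≠ none := by
      intro v hv
      obtain ⟨a, ha⟩ := Option.ne_none_iff_exists'.1 hv
      rw [hg1 v a ha]
      simp
    have hgw : ∀ w, g.right w ≠ none → f.right w ≠ none := by
      intro w hw
      obtain ⟨b, hb⟩ := Option.ne_none_iff_exists'.1 hw
      rw [hg2 w b hb]
      simp
    refine ⟨le_trans ?_ hsz, ρ, F.mono _ _ _ ?_ hρ, ?_, ?_⟩
    · unfold PLab.size
      apply Nat.add_le_add
      · exact card_le_card (monotone_filter_right _ fun v _ => hgv v)
      · exact card_le_card (monotone_filter_right _ fun w _ => hgw w)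
    · intro u hu
      rw [below, mem_filter] at hu ⊢
      rcases hu.2 with ⟨v, h3, h4⟩ | ⟨w, h3, h4⟩
      · exact ⟨mem_univ _, Or.inl ⟨v, hgv v h3, h4⟩⟩
      · exact ⟨mem_univ _, Or.inr ⟨w, hgw w h3, h4⟩⟩
    · intro v a h
      exact h1 v a (hg1 v a h)
    · intro w b h
      exact h2 w b (hg2 w b h)
  · rintro f ⟨hsz, ρ, hρ, h1, h2⟩ hlt
    have key : ∀ g : PLab (Fin N) (Fin N) d (Fintype.card LL), g.size ≤ k → below ιV ιW f ⊆ below ιV ιW g →
        ∃ ρ', F.C (below ιV ιW g) ρ' ∧ ∀ u ∈ below ιV ιW f, ρ' u = ρ u := by
      intro g hg hsub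
      obtain ⟨ρ', h3, h4⟩ := F.ext _ _ ρ hsub (((below_card ιV ιW g).trans hg).trans hk) hρ
      exact ⟨ρ', h4, h3⟩
    have keyV : ∀ ρ' : Fin n ⊕ Fin n → LL × Fin d, (∀ u ∈ below ιV ιW f, ρ' u = ρ u) →
        ∀ v a, f.left v = some a → a = labV cm m0 ιV ρ' v := by
      intro ρ' hρ' v a hv
      rw [h1 v a hv]
      unfold labV
      rcases hu : undV ιV v with _ | u
      · rfl
      · simp only
        rw [hρ' u (mem_filter.2 ⟨mem_univ _, Or.inl ⟨v, by rw [hv]; simp, hu⟩⟩)]
    have keyW : ∀ ρ' : Fin n ⊕ Fin n → LL × Fin d, (∀ u ∈ below ιV ιW f, ρ' u = ρ u) →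
        ∀ w b, f.right w = some b → b = labW m0 ιW ρ' w := by
      intro ρ' hρ' w b hw
      rw [h2 w b hw]
      unfold labW
      rcases hu : undW ιW w with _ | u
      · rfl
      · simp only
        rw [hρ' u (mem_filter.2 ⟨mem_univ _, Or.inr ⟨w, by rw [hw]; simp, hu⟩⟩)]
    constructor
    · intro v
      by_cases hv : f.left v = none
      · -- the domain of the extension
        set g0 : PLab (Fin N) (Fin N) d (Fintype.card LL) :=
          ⟨Function.update f.left v (some (eL LL m0.1)), f.right⟩ with hg0
        have hsize : g0.size ≤ k := by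
          have e1 : (univ.filter fun v' => g0.left v' ≠ none) ⊆
              insert v (univ.filter fun v' => f.left v' ≠ none) := by
            intro v' hv'
            rw [mem_filter] at hv'
            rw [mem_insert]
            by_cases h : v' = v
            · exact Or.inl h
            · right
              rw [mem_filter]
              refine ⟨mem_univ _, ?_⟩
              have h5 := hv'.2
              simp only [hg0, Function.update_of_ne h] at h5
              exact h5
          have e2 := (card_le_card e1).trans (card_insert_le _ _)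
          unfold PLab.size at hlt ⊢
          have e3 : (univ.filter fun w => g0.right w ≠ none) =
            univ.filter fun w => f.right w ≠ none := rfl
          rw [e3]
          omega
        have hsub : below ιV ιW f ⊆ below ιV ιW g0 := by
          intro u hu
          rw [below, mem_filter] at hu ⊢
          rcases hu.2 with ⟨v', h3, h4⟩ | ⟨w, h3, h4⟩
          · refine ⟨mem_univ _, Or.inl ⟨v', ?_, h4⟩⟩
            by_cases h : v' = v
            · rw [h, hg0]
              simp
            · simp only [hg0, Function.update_of_ne h]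
              exact h3
          · exact ⟨mem_univ _, Or.inr ⟨w, h3, h4⟩⟩
        obtain ⟨ρ', h3, h4⟩ := key g0 hsize hsub
        refine ⟨⟨Function.update f.left v (some (labV cm m0 ιV ρ' v)), f.right⟩,
          ⟨?_, ρ', ?_, ?_, ?_⟩, ⟨?_, ?_⟩, ?_⟩
        · refine le_trans (le_of_eq ?_) hsize
          unfold PLab.size
          congr 1
          apply congrArg card
          apply filter_congr
          intro v' _
          by_cases h : v' = v
          · rw [h, hg0]
            simp
          · simp only [hg0, Function.update_of_ne h]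
        · refine F.mono _ _ _ ?_ h3
          intro u hu
          rw [below, mem_filter] at hu ⊢
          rcases hu.2 with ⟨v', h5, h6⟩ | ⟨w, h5, h6⟩
          · refine ⟨mem_univ _, Or.inl ⟨v', ?_, h6⟩⟩
            by_cases h : v' = v
            · rw [h, hg0]
              simp
            · simp only [hg0, Function.update_of_ne h] at h5 ⊢
              exact h5
          · exact ⟨mem_univ _, Or.inr ⟨w, h5, h6⟩⟩
        · intro v' a h5
          by_cases h : v' = v
          · subst h
            simp only [Function.update_self, Option.some.injEq] at h5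
            exact h5.symm
          · simp only [Function.update_of_ne h] at h5
            exact keyV ρ' h4 v' a h5
        · intro w b h5
          exact keyW ρ' h4 w b h5
        · intro v' a h5
          have h : v' ≠ v := by
            rintro rfl
            rw [hv] at h5
            simp at h5
          simp only [Function.update_of_ne h]
          exact h5
        · intro w b h5
          exact h5
        · simp
      · exact ⟨f, ⟨hsz, ρ, hρ, h1, h2⟩, ⟨fun _ _ h => h, fun _ _ h => h⟩, hv⟩
    · intro w
      by_cases hw : f.right w = none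
      · -- the domain of the extension
        set g0 : PLab (Fin N) (Fin N) d (Fintype.card LL) :=
          ⟨f.left, Function.update f.right w (some (eR LL d m0))⟩ with hg0
        have hsize : g0.size ≤ k := by
          have e1 : (univ.filter fun v' => g0.right v' ≠ none) ⊆
              insert w (univ.filter fun v' => f.right v' ≠ none) := by
            intro v' hv'
            rw [mem_filter] at hv'
            rw [mem_insert]
            by_cases h : v' = w
            · exact Or.inl h
            · right
              rw [mem_filter]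
              refine ⟨mem_univ _, ?_⟩
              have h5 := hv'.2
              simp only [hg0, Function.update_of_ne h] at h5
              exact h5
          have e2 := (card_le_card e1).trans (card_insert_le _ _)
          unfold PLab.size at hlt ⊢
          have e3 : (univ.filter fun w => g0.left w ≠ none) =
            univ.filter fun w => f.left w ≠ none := rfl
          rw [e3]
          omega
        have hsub : below ιV ιW f ⊆ below ιV ιW g0 := by
          intro u hu
          rw [below, mem_filter] at hu ⊢
          rcases hu.2 with ⟨v', h3, h4⟩ | ⟨v', h3, h4⟩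
          · exact ⟨mem_univ _, Or.inl ⟨v', h3, h4⟩⟩
          · refine ⟨mem_univ _, Or.inr ⟨v', ?_, h4⟩⟩
            by_cases h : v' = w
            · rw [h, hg0]
              simp
            · simp only [hg0, Function.update_of_ne h]
              exact h3
        obtain ⟨ρ', h3, h4⟩ := key g0 hsize hsub
        refine ⟨⟨f.left, Function.update f.right w (some (labW m0 ιW ρ' w))⟩,
          ⟨?_, ρ', ?_, ?_, ?_⟩, ⟨?_, ?_⟩, ?_⟩
        · refine le_trans (le_of_eq ?_) hsize
          unfold PLab.size
          congr 1
          apply congrArg card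
          apply filter_congr
          intro v' _
          by_cases h : v' = w
          · rw [h, hg0]
            simp
          · simp only [hg0, Function.update_of_ne h]
        · refine F.mono _ _ _ ?_ h3
          intro u hu
          rw [below, mem_filter] at hu ⊢
          rcases hu.2 with ⟨v', h5, h6⟩ | ⟨v', h5, h6⟩
          · exact ⟨mem_univ _, Or.inl ⟨v', h5, h6⟩⟩
          · refine ⟨mem_univ _, Or.inr ⟨v', ?_, h6⟩⟩
            by_cases h : v' = w
            · rw [h, hg0]
              simp
            · simp only [hg0, Function.update_of_ne h] at h5 ⊢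
              exact h5
        · intro v' a h5
          exact keyV ρ' h4 v' a h5
        · intro v' b h5
          by_cases h : v' = w
          · subst h
            simp only [Function.update_self, Option.some.injEq] at h5
            exact h5.symm
          · simp only [Function.update_of_ne h] at h5
            exact keyW ρ' h4 v' b h5
        · intro v' a h5
          exact h5
        · intro v' b h5
          have h : v' ≠ w := by
            rintro rfl
            rw [hw] at h5
            simp at h5
          simp only [Function.update_of_ne h]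
          exact h5
        · simp
      · exact ⟨f, ⟨hsz, ρ, hρ, h1, h2⟩, ⟨fun _ _ h => h, fun _ _ h => h⟩, hw⟩

end

end Pool.Agent.NH48.DA
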