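import Pool.Agent.NH48.DA.Sol
import Pool.Agent.NH48.DA.KC
import Pool.Agent.H589R3.DT.Main

/-! # The lower bound for circuits with access to BLP+AIP -/

open scoped Classical
open Finset

namespace Pool.Agent.NH48.DA

open H589DT
open H630VC (Prog marked)

theorem ein_le {n D d C : ℕ} {LL : Type} (cm : ℕ → LL × Fin d → LL) (φ : Fin n → Fin D → Fin n)
    (B : Finset (Fin n)) (s : Fin n → Fin D → Fin C) (S : Finset (Fin n ⊕ Fin n)) :
    ((gg C cm φ B s).ein S).card ≤ (einφ φ B S).card := by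
  apply card_le_card_of_injOn Subtype.val
  · intro e he
    have h := mem_ein.1 (mem_coe.1 he)
    exact mem_coe.2 (mem_filter.2 ⟨mem_univ _, e.2, h.2, h.1⟩)
  · exact Subtype.val_injective.injOn

theorem gg_surj {n D d C : ℕ} {LL : Type} [Fintype LL] {cm : ℕ → LL × Fin d → LL}
    (hg : Good cm D C) (hd : 1 ≤ d) (φ : Fin n → Fin D → Fin n)
    (B : Finset (Fin n)) (s : Fin n → Fin D → Fin C) :
    (gg C cm φ B s).Surj := by
  constructor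
  · intro e a
    obtain ⟨l, hl⟩ := hg.surj ((e.1.2 : ℕ) * C + (s e.1.1 e.1.2 : ℕ)) ⟨0, hd⟩ a.1
    exact ⟨(l, ⟨0, hd⟩), hl⟩
  · intro e b
    exact ⟨(cm ((e.1.2 : ℕ) * C + (s e.1.1 e.1.2 : ℕ)) b, b.2), rfl⟩

/-- choice of the moduli and of the degree -/
theorem choice_pq (d k : ℕ) : ∃ p q D : ℕ, p.Prime ∧ q.Prime ∧ p ≠ q ∧ D * 2 ^ k ≤ p ∧
    D * 2 ^ k ≤ q ∧ d * (p * q) ^ 2 < 2 ^ D := by
  have h := tendsto_pow_const_div_const_pow_of_one_lt 4 (r := (2 : ℝ)) (by norm_num)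
  obtain ⟨c, hc⟩ : ∃ c : ℝ, c = (d + 1) * (64 * (2 * 2 ^ k) ^ 4) := ⟨_, rfl⟩
  have hc0 : 0 < c := by rw [hc]; positivity
  have h1 := (h.eventually (gt_mem_nhds (show (0 : ℝ) < 1 / c by positivity)))
  obtain ⟨D0, hD0⟩ := Filter.eventually_atTop.1 h1
  set D := D0 + 1 with hD
  have h2 := hD0 D (by omega)
  rw [div_lt_div_iff₀ (by positivity) hc0] at h2
  have hk : 1 ≤ 2 ^ k := Nat.one_le_two_pow
  have hDk : D * 2 ^ k ≠ 0 := by positivity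
  obtain ⟨p, hp, hp1, hp2⟩ := Nat.exists_prime_lt_and_le_two_mul (D * 2 ^ k) hDk
  obtain ⟨q, hq, hq1, hq2⟩ := Nat.exists_prime_lt_and_le_two_mul p hp.pos.ne'
  refine ⟨p, q, D, hp, hq, hq1.ne, hp1.le, (hp1.trans hq1).le, ?_⟩
  have h3 : p * q ≤ 8 * (D * 2 ^ k) ^ 2 := by
    calc p * q ≤ (2 * (D * 2 ^ k)) * (2 * (2 * (D * 2 ^ k))) :=
          Nat.mul_le_mul hp2 (hq2.trans (Nat.mul_le_mul_left _ hp2))
      _ = 8 * (D * 2 ^ k) ^ 2 := by ring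
  have h4 : (d : ℝ) * ((p : ℝ) * (q : ℝ)) ^ 2 < (2 : ℝ) ^ D := by
    have h5 : ((p * q : ℕ) : ℝ) ≤ ((8 * (D * 2 ^ k) ^ 2 : ℕ) : ℝ) := Nat.cast_le.2 h3
    push_cast at h5
    have h6 : ((p : ℝ) * q) ^ 2 ≤ (8 * ((D : ℝ) * 2 ^ k) ^ 2) ^ 2 :=
      pow_le_pow_left₀ (by positivity) h5 2
    have hk0 : (0 : ℝ) < 2 ^ k := by positivity
    have h7 : (d : ℝ) * ((p : ℝ) * q) ^ 2 ≤ ((d : ℝ) + 1) * (8 * ((D : ℝ) * 2 ^ k) ^ 2) ^ 2 :=
      mul_le_mul (by linarith) h6 (by positivity) (by positivity)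
    have h8 : ((d : ℝ) + 1) * (8 * ((D : ℝ) * 2 ^ k) ^ 2) ^ 2 =
        (D : ℝ) ^ 4 * (((d : ℝ) + 1) * (64 * (2 ^ k) ^ 4)) := by ring
    have h9 : (D : ℝ) ^ 4 * (((d : ℝ) + 1) * (64 * (2 ^ k) ^ 4)) ≤ (D : ℝ) ^ 4 * c := by
      rw [hc]
      have h10 : ((2 : ℝ) ^ k) ^ 4 ≤ (2 * 2 ^ k) ^ 4 :=
        pow_le_pow_left₀ hk0.le (by linarith) 4
      gcongr
    linarith
  exact_mod_cast h4

/-- the inputs, with the functions that are blind to games accepted by BLP+AIP -/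
theorem hostInputs_blind {p q d n D m N C : ℕ} [Fact p.Prime] [Fact q.Prime] (hpq : p ≠ q)
    (hd : 2 ≤ d) (hinj : ∀ t j l l', cmPQ p q d t (l, j) = cmPQ p q d t (l', j) → l = l')
    {φ : Fin n → Fin D → Fin n} {B : Finset (Fin n)} (s : Fin n → Fin D → Fin C)
    (ιV ιW : Option (Fin n × Fin m) ↪ Fin N) (hφ : ∀ w i j, w ∉ B → φ w i = φ w j → i = j)
    (k K : ℕ) (hk : k ≤ K) (F : Local (Fin n ⊕ Fin n) ((ZMod p × ZMod q) × Fin d) K)
    (hF : ∀ S ρ, F.C S ρ → (gg C (cmPQ p q d) φ B s).SatOn S ρ) :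
    HostInputs (hostInst (cmPQ p q d) hinj φ B s ιV ιW)
      (dInputs (Fin N) (Fin N) d (Fintype.card (ZMod p × ZMod q)) ∪
        Blind (Fin N) (Fin N) d (Fintype.card (ZMod p × ZMod q)) k) := by
  rintro g (hg | ⟨c, hc⟩)
  · exact hostInputs hφ g hg
  · exact Or.inl ⟨c, fun H => hc _ (host_blpAip hpq hd hinj φ B s ιV ιW H)
      (host_kcons ((0, 0), ⟨0, by omega⟩) hφ k K hk F hF H)⟩

/-- the conditions on the size parameter -/
theorem main_L (d : ℕ) (hd : 2 ≤ d) (ε : ℝ) (hε : 0 < ε) :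
    ∃ R L1 : ℕ, 1 ≤ R ∧ ∀ L : ℕ, L1 ≤ L → ∀ N : ℕ, 64 * L ^ 13 + 1 ≤ N → ∀ kc ≤ L,
      ∀ (Ω : Type) [Fintype Ω] [Nonempty Ω] (l : Ω → List (DGame (Fin N) (Fin N) d R → ℝ)),
      (∀ ω, Prog (dInputs (Fin N) (Fin N) d R ∪ Blind (Fin N) (Fin N) d R kc) (l ω)) →
      DDecides ε l → ∃ ω, 2 ^ L ≤ (l ω).length := by
  set k := Nat.ceil (8 / ε) with hk
  obtain ⟨p, q, D, hp, hq, hpq, hpD, hqD, hD⟩ := choice_pq d k
  have : Fact p.Prime := ⟨hp⟩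
  have : Fact q.Prime := ⟨hq⟩
  set C := 2 ^ k with hC
  have hC1 : 1 ≤ C := Nat.one_le_two_pow
  obtain ⟨LL, hLL⟩ : ∃ LL, LL = Fintype.card (ZMod p × ZMod q) := ⟨_, rfl⟩
  have hcLL : LL = p * q := by rw [hLL, Fintype.card_prod, ZMod.card, ZMod.card]
  have hLL1 : 1 ≤ LL := by rw [hcLL]; exact Nat.mul_pos hp.pos hq.pos
  have hgood : Good (cmPQ p q d) D C := cmPQ_good p q d D C hpq hpD hqD hd
  have hinj : ∀ t j l l', cmPQ p q d t (l, j) = cmPQ p q d t (l', j) → l = l' := hgood.inj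
  set r := 2 * (d * LL) + 4 with hr
  set h := 3 * r with hh
  have hD1 : 1 ≤ D := by
    by_contra h0
    have : D = 0 := by omega
    rw [this, pow_zero] at hD
    have : 1 ≤ d * (p * q) ^ 2 := Nat.mul_pos (by omega) (pow_pos (Nat.mul_pos hp.pos hq.pos) 2)
    omega
  obtain ⟨n0, hn0⟩ := t_EX D (2 * h) r (by omega)
  obtain ⟨L0, hL0⟩ := pow_le_two_pow
  refine ⟨LL, n0 + L0 + 64 * (h + 1) ^ 2 + 1024 * (d * LL) ^ 2 + Nat.ceil (4 / ε) + 2, hLL1, ?_⟩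
  intro L hL N hN kc hkc Ω _ _ l hl hdec
  have hL2 : 2 ≤ L := by omega
  -- the graph
  obtain ⟨n, hn⟩ : ∃ n, n = L ^ 3 := ⟨_, rfl⟩
  obtain ⟨M, hM⟩ : ∃ M, M = L ^ 2 := ⟨_, rfl⟩
  obtain ⟨Q, hQ⟩ : ∃ Q, Q = L ^ 9 := ⟨_, rfl⟩
  obtain ⟨m, hm⟩ : ∃ m, m = 64 * L ^ 10 := ⟨_, rfl⟩
  have hLn : L ≤ n := by
    rw [hn]
    calc L = L ^ 1 := (pow_one L).symm
      _ ≤ L ^ 3 := Nat.pow_le_pow_right (by omega) (by norm_num)
  obtain ⟨φ, B, hB, hsp, hgi⟩ := hn0 n (by omega)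
  have hφ := phi_inj (fun S hS hS2 => hgi S hS (hS2.trans (by omega)))
  -- the number of edges and `K`
  have hEE := card_EE (D := D) B
  have hE2 : n * D ≤ 2 * Fintype.card (EE D B) := by
    rw [hEE]
    calc n * D ≤ (2 * (n - B.card)) * D := Nat.mul_le_mul_right _ (by omega)
      _ = _ := by ring
  set EC := Fintype.card (EE D B) with hEC
  set K := Nat.ceil (ε * EC / 2) with hK
  have hECr : (2 : ℝ) / ε ≤ EC := by
    have h1 : (4 / ε : ℝ) ≤ L := (Nat.le_ceil _).trans (Nat.cast_le.2 (by omega))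
    have h2 : n ≤ 2 * EC := (Nat.le_mul_of_pos_right n hD1).trans hE2
    have h3 : (L : ℝ) ≤ 2 * EC := by exact_mod_cast hLn.trans h2
    have h4 : (4 / ε : ℝ) = 2 * (2 / ε) := by ring
    linarith
  have hKlt : (K : ℝ) < ε * ((EC : ℝ) + 1) := by
    have h1 : (K : ℝ) < ε * EC / 2 + 1 := Nat.ceil_lt_add_one (by positivity)
    have h2 : 2 ≤ EC * ε := (div_le_iff₀ hε).1 hECr
    nlinarith
  have hpK : (d * Fintype.card (ZMod p × ZMod q) ^ 2) ^ n * 2 ^ (D * n) < C ^ K := by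
    rw [← hLL, hcLL]
    have h1 : 2 * (D * n) ≤ k * K := by
      have h2 : (8 / ε : ℝ) ≤ k := Nat.le_ceil _
      have h3 : ε * EC / 2 ≤ (K : ℝ) := Nat.le_ceil _
      have h4 : (4 * EC : ℝ) ≤ k * K := by
        calc (4 * EC : ℝ) = (8 / ε) * (ε * EC / 2) := by field_simp; ring
          _ ≤ k * K := mul_le_mul h2 h3 (by positivity) (by positivity)
      have h5 : (4 * EC : ℕ) ≤ k * K := by exact_mod_cast h4
      calc 2 * (D * n) = 2 * (n * D) := by ring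
        _ ≤ 2 * (2 * EC) := Nat.mul_le_mul_left _ hE2
        _ = 4 * EC := by ring
        _ ≤ _ := h5
    have hn1 : n ≠ 0 := by omega
    calc (d * (p * q) ^ 2) ^ n * 2 ^ (D * n) < (2 ^ D) ^ n * 2 ^ (D * n) := by
          apply Nat.mul_lt_mul_of_pos_right _ (by positivity)
          exact Nat.pow_lt_pow_left hD hn1
      _ = 2 ^ (2 * (D * n)) := by rw [← pow_mul, two_mul, pow_add]
      _ ≤ 2 ^ (k * K) := Nat.pow_le_pow_right (by norm_num) h1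
      _ = C ^ K := by rw [hC, pow_mul]
  obtain ⟨s, hs⟩ := hgood.small n K hC1 φ B hpK
  -- local consistency
  set G := gg C (cmPQ p q d) φ B s with hG
  have hGgirth : G.Girth r := fun S hS hSr =>
    lt_of_le_of_lt (ein_le (cmPQ p q d) φ B s S) (hgi S hS hSr)
  have hGsparse : G.Sparse (2 * h) (8 * (h + 1) * L) := by
    intro S hS
    refine (ein_le (cmPQ p q d) φ B s S).trans (hsp S ?_)
    calc S.card ^ 2 ≤ (8 * (h + 1) * L) ^ 2 := Nat.pow_le_pow_left hS 2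
      _ = (64 * (h + 1) ^ 2) * L ^ 2 := by ring
      _ ≤ L * L ^ 2 := Nat.mul_le_mul_right _ (by omega)
      _ = n := by rw [hn]; ring
  have hmix : G.Mixing r := by
    have := hgood.mixing (by omega) n φ B s
    rwa [← hLL] at this
  have : Nonempty ((ZMod p × ZMod q) × Fin d) := ⟨((0, 0), ⟨0, by omega⟩)⟩
  obtain ⟨F, hF⟩ := lo_all _ _ _ G r h (8 * (h + 1) * L) (2 * L) (by omega) le_rfl
    (gg_surj hgood (by omega) φ B s) hmix hGgirth hGsparse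
    (by ring_nf; exact le_rfl)
  -- parameters of the approximation
  set qq := d * LL with hqq
  have hmpos : 0 < m := by rw [hm]; positivity
  have : NeZero m := ⟨hmpos.ne'⟩
  have hcardV : Fintype.card (Option (Fin n × Fin m)) ≤ Fintype.card (Fin N) := by
    rw [Fintype.card_option, Fintype.card_prod, Fintype.card_fin, Fintype.card_fin,
      Fintype.card_fin]
    calc n * m + 1 = 64 * L ^ 13 + 1 := by rw [hn, hm]; ring
      _ ≤ N := hN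
  obtain ⟨ιV⟩ := Function.Embedding.nonempty_of_card_le hcardV
  obtain ⟨f, hf, hI⟩ := hdec
  have hcardΛ : Fintype.card ((ZMod p × ZMod q) × Fin d) = qq := by
    rw [Fintype.card_prod, ← hLL, Fintype.card_fin, mul_comm]
  have hcardU : Fintype.card (Fin n ⊕ Fin n) = 2 * n := by
    rw [Fintype.card_sum, Fintype.card_fin]; ring
  have hQ1 : 1 ≤ Q := by rw [hQ]; exact Nat.one_le_pow _ _ (by omega)
  have hM1 : 1 ≤ M := by rw [hM]; exact Nat.one_le_pow _ _ (by omega)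
  have hq1 : 1 ≤ qq := Nat.mul_pos (by omega) hLL1
  have hqL : 1024 * qq ^ 2 ≤ L := by omega
  subst hLL
  refine generic ho_all t_NC G L M Q F hF hL2 hM1 hQ1 ?_ ?_ ?_
    (hostInst (cmPQ p q d) hinj φ B s ιV ιV) _
    (hostInputs_blind hpq hd hinj s ιV ιV hφ kc (2 * L) (by omega) F hF) Ω l hl f hf ?_ ?_
  · rw [Fintype.card_fin, hm, hQ]
    apply le_of_eq
    ring
  · rw [hcardU, Fintype.card_fin, hcardΛ]
    calc 8 * (2 * n * m * qq ^ 2 * M ^ 2) = (1024 * qq ^ 2) * L ^ 17 := by rw [hn, hm, hM]; ring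
      _ ≤ L * L ^ 17 := Nat.mul_le_mul_right _ hqL
      _ = Q ^ 2 := by rw [hQ]; ring
  · rw [hcardU, Fintype.card_fin, hcardΛ]
    exact num3 L qq n m M (by omega) hq1 hqL hn hm hM (hL0 L (by omega))
  · intro x
    exact (hI _).1 (host_no hφ ε K hKlt hs x)
  · intro T hT0
    exact (hI _).2 (host_yes ((0, 0), ⟨0, by omega⟩) hφ T hT0)

/-- the choice of `L` -/
theorem choose_L' (L1 : ℕ) : ∃ N0 : ℕ, ∀ N : ℕ, N0 ≤ N →
    ∃ L, L1 ≤ L ∧ 64 * L ^ 13 + 1 ≤ N ∧ (N : ℝ) ^ (1 / 14 : ℝ) ≤ L := by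
  obtain ⟨N0, h⟩ := choose_L L1
  refine ⟨N0, fun N hN => ?_⟩
  obtain ⟨L, h1, h2, h3⟩ := h N hN
  refine ⟨L, h1, h2, ?_⟩
  have h4 : (2 : ℝ) ^ (L : ℕ) = (2 : ℝ) ^ (L : ℝ) := (Real.rpow_natCast 2 L).symm
  rw [h4] at h3
  exact (Real.rpow_le_rpow_left_iff (by norm_num)).1 h3

/-- d-to-1 games with perfect completeness are hard for randomised circuits of monotone real
gates with access to BLP+AIP and to local consistency -/
theorem dto1_blind (d : ℕ) (hd : 2 ≤ d) (ε : ℝ) (hε : 0 < ε) :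
    ∃ R : ℕ, 1 ≤ R ∧ ∃ N0 : ℕ, ∀ N k : ℕ, N0 ≤ N → (k : ℝ) ≤ (N : ℝ) ^ (1 / 14 : ℝ) →
      ∀ (Ω : Type) [Fintype Ω] [Nonempty Ω] (l : Ω → List (DGame (Fin N) (Fin N) d R → ℝ)),
      (∀ ω, Prog (dInputs (Fin N) (Fin N) d R ∪ Blind (Fin N) (Fin N) d R k) (l ω)) →
      DDecides ε l → ∃ ω, (2 : ℝ) ^ ((N : ℝ) ^ (1 / 14 : ℝ)) ≤ (l ω).length := by
  obtain ⟨R, L1, hR, h⟩ := main_L d hd ε hε
  obtain ⟨N0, hN0⟩ := choose_L' L1
  refine ⟨R, hR, N0, fun N k hN hk Ω _ _ l hl hdec => ?_⟩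
  obtain ⟨L, hL1, hLN, hL⟩ := hN0 N hN
  have hkL : k ≤ L := by exact_mod_cast hk.trans hL
  obtain ⟨ω, hω⟩ := h L hL1 N hLN k hkL Ω l hl hdec
  refine ⟨ω, ?_⟩
  calc (2 : ℝ) ^ ((N : ℝ) ^ (1 / 14 : ℝ)) ≤ (2 : ℝ) ^ (L : ℝ) :=
        Real.rpow_le_rpow_of_exponent_le (by norm_num) hL
    _ = 2 ^ L := Real.rpow_natCast 2 L
    _ ≤ (l ω).length := by exact_mod_cast hω

end Pool.Agent.NH48.DA
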