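import Pool.Agent.NH48.DA.Fam

/-! # The family of constraints with two moduli -/

open scoped Classical
open Finset

namespace Pool.Agent.NH48.DA

/-- the constraint maps: a right label `(a, b, j)` is mapped to `(a, b + t)` if `j = 0` and to
`(a + t, b)` if `j ≥ 1` -/
def cmPQ (p q d : ℕ) (t : ℕ) (m : (ZMod p × ZMod q) × Fin d) : ZMod p × ZMod q :=
  if (m.2 : ℕ) = 0 then (m.1.1, m.1.2 + (t : ZMod q)) else (m.1.1 + (t : ZMod p), m.1.2)

theorem natCast_inj_of_lt {p a b : ℕ} (ha : a < p) (hb : b < p) (h : (a : ZMod p) = (b : ZMod p)) :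
    a = b := by
  rw [ZMod.natCast_eq_natCast_iff'] at h
  rwa [Nat.mod_eq_of_lt ha, Nat.mod_eq_of_lt hb] at h

theorem idx_lt {i D C s : ℕ} (hi : i < D) (hs : s < C) : i * C + s < D * C := by
  calc i * C + s < i * C + C := by omega
    _ = (i + 1) * C := by ring
    _ ≤ D * C := Nat.mul_le_mul_right _ hi

theorem cmPQ_inj (p q d t : ℕ) (j : Fin d) (l l' : ZMod p × ZMod q)
    (h : cmPQ p q d t (l, j) = cmPQ p q d t (l', j)) : l = l' := by
  unfold cmPQ at h
  by_cases hj : (j : ℕ) = 0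
  · simp only [hj, if_true, Prod.mk.injEq, add_left_inj] at h
    exact Prod.ext h.1 h.2
  · simp only [hj, if_false, Prod.mk.injEq, add_left_inj] at h
    exact Prod.ext h.1 h.2

theorem cmPQ_good (p q d D C : ℕ) [Fact p.Prime] [Fact q.Prime] (hpq : p ≠ q)
    (hp : D * C ≤ p) (hq : D * C ≤ q) (hd : 2 ≤ d) : Good (cmPQ p q d) D C := by
  refine ⟨fun t j l l' h => cmPQ_inj p q d t j l l' h, ?_, ?_⟩
  · rintro i hi ⟨⟨a, b⟩, j⟩ ⟨x, y⟩ s hs s' hs' h1 h2
    have h3 := h1.trans h2.symm
    unfold cmPQ at h3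
    have e1 := idx_lt hi hs
    have e2 := idx_lt hi hs'
    by_cases hj : (j : ℕ) = 0
    · simp only [hj, if_true, Prod.mk.injEq, add_right_inj, true_and] at h3
      have := natCast_inj_of_lt (lt_of_lt_of_le e1 hq) (lt_of_lt_of_le e2 hq) h3
      omega
    · simp only [hj, if_false, Prod.mk.injEq, add_right_inj, and_true] at h3
      have := natCast_inj_of_lt (lt_of_lt_of_le e1 hp) (lt_of_lt_of_le e2 hp) h3
      omega
  · intro i hi i' hi' hii s hs s' hs' R hne hR hR'
    set t := i * C + s with ht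
    set t' := i' * C + s' with ht'
    have e1 : t < D * C := idx_lt hi hs
    have e2 : t' < D * C := idx_lt hi' hs'
    have htt : t ≠ t' := by
      intro h
      apply hii
      have h1 : (i * C + s) / C = (i' * C + s') / C := by rw [← ht, ← ht', h]
      have hC : 0 < C := by omega
      rw [mul_comm i, mul_comm i', Nat.mul_add_div hC, Nat.mul_add_div hC, Nat.div_eq_of_lt hs,
        Nat.div_eq_of_lt hs'] at h1
      simpa using h1
    have h0 : 0 < d := by omega
    have h1 : 1 < d := by omega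
    have hδ : (t' : ZMod p) - t ≠ 0 := fun h =>
      htt (natCast_inj_of_lt (lt_of_lt_of_le e1 hp) (lt_of_lt_of_le e2 hp) (sub_eq_zero.1 h).symm)
    have hδ' : (t : ZMod q) - t' ≠ 0 := fun h =>
      htt (natCast_inj_of_lt (lt_of_lt_of_le e1 hq) (lt_of_lt_of_le e2 hq) (sub_eq_zero.1 h))
    have hstep : ∀ (a : ZMod p) (b : ZMod q),
        (((a, b), (⟨0, h0⟩ : Fin d)) : (ZMod p × ZMod q) × Fin d) ∈ R →
        (((a + ((t' : ZMod p) - t), b + ((t : ZMod q) - t')), (⟨0, h0⟩ : Fin d)) :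
          (ZMod p × ZMod q) × Fin d) ∈ R := by
      intro a b hab
      have h2 : (((a - t, b + t), (⟨1, h1⟩ : Fin d)) : (ZMod p × ZMod q) × Fin d) ∈ R := by
        apply hR _ _ hab
        simp [cmPQ]
      apply hR' _ _ h2
      simp only [cmPQ, one_ne_zero, if_false, if_true, Prod.mk.injEq]
      constructor <;> ring
    obtain ⟨m0, hm0⟩ := hne
    obtain ⟨x0, hx0⟩ : ∃ x0, cmPQ p q d t m0 = x0 := ⟨_, rfl⟩
    have hc0 : (((x0.1, x0.2 - t), (⟨0, h0⟩ : Fin d)) : (ZMod p × ZMod q) × Fin d) ∈ R := by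
      apply hR _ _ hm0
      rw [hx0]
      simp [cmPQ]
    have hn : ∀ m : ℕ, (((x0.1 + m * ((t' : ZMod p) - t), x0.2 - t + m * ((t : ZMod q) - t')),
        (⟨0, h0⟩ : Fin d)) : (ZMod p × ZMod q) × Fin d) ∈ R := by
      intro m
      induction m with
      | zero => simpa using hc0
      | succ m ih =>
        have h3 := hstep _ _ ih
        have e3 : x0.1 + ((m + 1 : ℕ) : ZMod p) * ((t' : ZMod p) - t) =
            x0.1 + (m : ZMod p) * ((t' : ZMod p) - t) + ((t' : ZMod p) - t) := by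
          push_cast
          ring
        have e4 : x0.2 - t + ((m + 1 : ℕ) : ZMod q) * ((t : ZMod q) - t') =
            x0.2 - t + (m : ZMod q) * ((t : ZMod q) - t') + ((t : ZMod q) - t') := by
          push_cast
          ring
        rw [e3, e4]
        exact h3
    have hcop : Nat.Coprime p q :=
      (Nat.coprime_primes Fact.out Fact.out).2 hpq
    have hall : ∀ (x : ZMod p) (y : ZMod q),
        (((x, y), (⟨0, h0⟩ : Fin d)) : (ZMod p × ZMod q) × Fin d) ∈ R := by
      intro x y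
      obtain ⟨m, hm1, hm2⟩ := Nat.chineseRemainder hcop ((x - x0.1) / ((t' : ZMod p) - t)).val
        ((y - (x0.2 - t)) / ((t : ZMod q) - t')).val
      have f1 : (m : ZMod p) = (x - x0.1) / ((t' : ZMod p) - t) := by
        rw [(ZMod.natCast_eq_natCast_iff _ _ _).2 hm1, ZMod.natCast_zmod_val]
      have f2 : (m : ZMod q) = (y - (x0.2 - t)) / ((t : ZMod q) - t') := by
        rw [(ZMod.natCast_eq_natCast_iff _ _ _).2 hm2, ZMod.natCast_zmod_val]
      have h3 := hn m
      rw [f1, f2, div_mul_cancel₀ _ hδ, div_mul_cancel₀ _ hδ'] at h3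
      have f3 : x0.1 + (x - x0.1) = x := by ring
      have f4 : x0.2 - t + (y - (x0.2 - t)) = y := by ring
      rw [f3, f4] at h3
      exact h3
    ext m
    simp only [mem_univ, iff_true]
    obtain ⟨z, hz⟩ : ∃ z, cmPQ p q d t m = z := ⟨_, rfl⟩
    apply hR _ _ (hall z.1 (z.2 - t))
    rw [hz]
    simp [cmPQ]

end Pool.Agent.NH48.DA
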