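import Pool.Agent.NH48.DA.PQ
import Pool.Agent.NH48.DA.Host
import Pool.Agent.NH48.DA.Relax

/-! # The host games have solutions of the linear relaxations -/

open scoped Classical
open Finset

namespace Pool.Agent.NH48.DA

open H589DT

section

variable {p q d : ℕ}

/-- the weights of the right labels, in the integral solution -/
def yw (p q d : ℕ) (u v : ℤ) (m : (ZMod p × ZMod q) × Fin d) : ℤ :=
  (if (m.2 : ℕ) = 1 ∧ m.1.2 = 0 then u else 0) + (if (m.2 : ℕ) = 0 ∧ m.1.1 = 0 then v else 0)

/-- the weights of the left labels, in the integral solution -/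
def xw (p q : ℕ) (u v : ℤ) (l : ZMod p × ZMod q) : ℤ :=
  (if l.2 = 0 then u else 0) + (if l.1 = 0 then v else 0)

theorem fib_sum {K : Type} [CommRing K] [Fact p.Prime] [Fact q.Prime] (t : ℕ)
    (f : (ZMod p × ZMod q) × Fin d → K) (l : ZMod p × ZMod q) :
    ∑ m with cmPQ p q d t m = l, f m =
      ∑ j : Fin d, if (j : ℕ) = 0 then f ((l.1, l.2 - t), j) else f ((l.1 - t, l.2), j) := by
  have h1 : ∑ m with cmPQ p q d t m = l, f m =
      ∑ m : (ZMod p × ZMod q) × Fin d, if cmPQ p q d t m = l then f m else 0 := by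
    rw [sum_filter]
  rw [h1, Fintype.sum_prod_type_right]
  refine sum_congr rfl fun j _ => ?_
  by_cases hj : (j : ℕ) = 0
  · rw [if_pos hj, Finset.sum_eq_single (l.1, l.2 - (t : ZMod q))]
    · rw [if_pos]
      simp [cmPQ, hj]
    · intro l' _ hl'
      rw [if_neg]
      intro h
      apply hl'
      simp only [cmPQ, hj, if_true] at h
      rw [← h]
      simp
    · intro h
      exact absurd (mem_univ _) h
  · rw [if_neg hj, Finset.sum_eq_single (l.1 - (t : ZMod p), l.2)]
    · rw [if_pos]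
      simp [cmPQ, hj]
    · intro l' _ hl'
      rw [if_neg]
      intro h
      apply hl'
      simp only [cmPQ, hj, if_false] at h
      rw [← h]
      simp
    · intro h
      exact absurd (mem_univ _) h

theorem fib_yw [Fact p.Prime] [Fact q.Prime] (hd : 2 ≤ d) (t : ℕ) (u v : ℤ)
    (l : ZMod p × ZMod q) :
    ∑ m with cmPQ p q d t m = l, yw p q d u v m = xw p q u v l := by
  rw [fib_sum]
  have h1 : ∀ j : Fin d, (if (j : ℕ) = 0 then yw p q d u v ((l.1, l.2 - t), j)
      else yw p q d u v ((l.1 - t, l.2), j)) =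
      (if (j : ℕ) = 1 then (if l.2 = 0 then u else 0) else 0) +
        (if (j : ℕ) = 0 then (if l.1 = 0 then v else 0) else 0) := by
    intro j
    unfold yw
    by_cases hj : (j : ℕ) = 0
    · simp [hj]
    · simp only [hj, if_false, false_and, add_zero]
      by_cases hj1 : (j : ℕ) = 1
      · simp [hj1]
      · simp [hj1]
  rw [Finset.sum_congr rfl fun j _ => h1 j, Finset.sum_add_distrib]
  unfold xw
  congr 1
  · rw [Finset.sum_eq_single (⟨1, by omega⟩ : Fin d)]
    · simp
    · intro j _ hj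
      rw [if_neg]
      intro h
      exact hj (Fin.ext h)
    · intro h
      exact absurd (mem_univ _) h
  · rw [Finset.sum_eq_single (⟨0, by omega⟩ : Fin d)]
    · simp
    · intro j _ hj
      rw [if_neg]
      intro h
      exact hj (Fin.ext h)
    · intro h
      exact absurd (mem_univ _) h

theorem sum_xw [Fact p.Prime] [Fact q.Prime] (u v : ℤ) (huv : u * p + v * q = 1) :
    ∑ l, xw p q u v l = 1 := by
  unfold xw
  rw [Finset.sum_add_distrib, Fintype.sum_prod_type, Fintype.sum_prod_type_right]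
  have e1 : ∑ _x : ZMod p, ∑ y : ZMod q, (if (y : ZMod q) = 0 then u else 0) = p * u := by
    simp [ZMod.card]
  have e2 : ∑ _y : ZMod q, ∑ x : ZMod p, (if (x : ZMod p) = 0 then v else 0) = q * v := by
    simp [ZMod.card]
  rw [e1, e2]
  linarith

theorem sum_yw [Fact p.Prime] [Fact q.Prime] (hd : 2 ≤ d) (u v : ℤ)
    (huv : u * p + v * q = 1) : ∑ m, yw p q d u v m = 1 := by
  rw [← sum_xw (p := p) (q := q) u v huv]
  have h1 : ∀ l, xw p q u v l = ∑ m with cmPQ p q d 0 m = l, yw p q d u v m :=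
    fun l => (fib_yw hd 0 u v l).symm
  rw [Finset.sum_congr rfl fun l _ => h1 l]
  exact (Finset.sum_fiberwise (s := univ) (g := cmPQ p q d 0) (f := yw p q d u v)).symm

end

section

variable {p q d n D m N C : ℕ}

/-- the host games are accepted by BLP+AIP -/
theorem host_blpAip [Fact p.Prime] [Fact q.Prime] (hpq : p ≠ q) (hd : 2 ≤ d)
    (hinj : ∀ t j l l', cmPQ p q d t (l, j) = cmPQ p q d t (l', j) → l = l')
    (φ : Fin n → Fin D → Fin n) (B : Finset (Fin n)) (s : Fin n → Fin D → Fin C)
    (ιV ιW : Option (Fin n × Fin m) ↪ Fin N) (H : Finset (EE D B × Fin m × Fin m)) :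
    BlpAip (hostInst (cmPQ p q d) hinj φ B s ιV ιW H) := by
  have hcop : Nat.Coprime p q := (Nat.coprime_primes Fact.out Fact.out).2 hpq
  obtain ⟨u, v, huv⟩ : ∃ u v : ℤ, u * p + v * q = 1 := by
    have h := Nat.isCoprime_iff_coprime.2 hcop
    obtain ⟨a, b, hab⟩ := h
    exact ⟨a, b, hab⟩
  have hd0 : (d : ℚ) ≠ 0 := by
    have : d ≠ 0 := by omega
    exact_mod_cast this
  have hp0 : (p : ℚ) ≠ 0 := by exact_mod_cast (Fact.out : p.Prime).pos.ne'
  have hq0 : (q : ℚ) ≠ 0 := by exact_mod_cast (Fact.out : q.Prime).pos.ne'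
  have hcL : Fintype.card (ZMod p × ZMod q) = p * q := by
    rw [Fintype.card_prod, ZMod.card, ZMod.card]
  have hpos1 : (0 : ℚ) < 1 / (p * q) := by
    have h1 : (0 : ℚ) < p := by exact_mod_cast (Fact.out : p.Prime).pos
    have h2 : (0 : ℚ) < q := by exact_mod_cast (Fact.out : q.Prime).pos
    positivity
  have hpos2 : (0 : ℚ) < 1 / (d * (p * q)) := by
    have h1 : (0 : ℚ) < p := by exact_mod_cast (Fact.out : p.Prime).pos
    have h2 : (0 : ℚ) < q := by exact_mod_cast (Fact.out : q.Prime).pos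
    have h3 : (0 : ℚ) < d := by exact_mod_cast (by omega : 0 < d)
    positivity
  have hfib : ∀ {K : Type} [CommRing K] (t : ℕ) (a : Fin (Fintype.card (ZMod p × ZMod q)))
      (f : (ZMod p × ZMod q) × Fin d → K),
      ∑ b with cmap (cmPQ p q d) t b = a, f ((eR (ZMod p × ZMod q) d).symm b) =
        ∑ m' with cmPQ p q d t m' = (eL (ZMod p × ZMod q)).symm a, f m' := by
    intro K _ t a f
    apply Finset.sum_equiv (eR (ZMod p × ZMod q) d).symm
    · intro b
      rw [mem_filter, mem_filter]
      simp only [mem_univ, true_and]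
      unfold cmap
      exact (Equiv.eq_symm_apply (eL (ZMod p × ZMod q))).symm
    · intro b _
      rfl
  refine ⟨fun _ _ => 1 / (p * q), fun _ _ => 1 / (d * (p * q)),
    fun _ a => xw p q u v ((eL _).symm a), fun _ b => yw p q d u v ((eR _ d).symm b),
    ⟨?_, ?_, ?_⟩, ⟨?_, ?_, ?_⟩, fun _ _ => hpos1.le, fun _ _ => hpos2.le,
    fun _ _ h => absurd h hpos1.ne', fun _ _ h => absurd h hpos2.ne'⟩
  · intro v
    rw [sum_const, card_univ, Fintype.card_fin, hcL]
    push_cast
    rw [nsmul_eq_mul]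
    push_cast
    field_simp
  · intro w
    rw [sum_const, card_univ, Fintype.card_fin, hcL]
    rw [nsmul_eq_mul]
    push_cast
    field_simp
  · intro v w _ a
    show ∑ b with cmap (cmPQ p q d) (hnum φ B s ιV ιW v w) b = a, (1 : ℚ) / (d * (p * q)) =
      1 / (p * q)
    rw [hfib (hnum φ B s ιV ιW v w) a (fun _ => (1 : ℚ) / (d * (p * q))), fib_sum]
    simp only [ite_self, sum_const, card_univ, Fintype.card_fin, nsmul_eq_mul]
    field_simp
  · intro _
    rw [← sum_xw (p := p) (q := q) u v huv]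
    exact Equiv.sum_comp (eL (ZMod p × ZMod q)).symm (xw p q u v)
  · intro _
    rw [← sum_yw (p := p) (q := q) hd u v huv]
    exact Equiv.sum_comp (eR (ZMod p × ZMod q) d).symm (yw p q d u v)
  · intro v' w _ a
    show ∑ b with cmap (cmPQ p q d) (hnum φ B s ιV ιW v' w) b = a,
      yw p q d u v ((eR _ d).symm b) = xw p q u v ((eL _).symm a)
    rw [hfib (hnum φ B s ιV ιW v' w) a (yw p q d u v), fib_yw hd]

end

end Pool.Agent.NH48.DA
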